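import Pool.Agent.H74.TQ.Stmts

set_option autoImplicit false

namespace Pool.TQ

open TMLib Polynomial

theorem adapt : S_ADAPT := by
  intro K hTWO hCHAIN hCHNP c kp α _ _ L hL
  obtain ⟨Q, O, P, hQ, hO, h⟩ := hL
  obtain ⟨B, hB⟩ := hQ.exists_size_le
  have pT : PTime fun x : α => P.eval (sz x) := by fun_prop
  have pm : PTime fun x : α => B.eval (1 + sz x + (1 + 4 * P.eval (sz x))) := by fun_prop
  have cn := hCHNP c kp Q O (fun x => B.eval (1 + sz x + (1 + 4 * P.eval (sz x))))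
    (fun x => P.eval (sz x)) hQ hO pm pT
  obtain ⟨CF, pCF, hCF⟩ := K.toSat cn.ci
  obtain ⟨q, t, hq, ht, hqt⟩ := @hTWO K c α _ _ _ _ _ (cn.xx CF pCF true) (cn.xx CF pCF false)
    (cn.yy CF pCF true)
  refine ⟨q, t, hq, ht, fun x => ?_⟩
  rw [← hqt x]
  simp only
  rw [← h x _ le_rfl]
  refine hCHAIN c kp Q O CF _ (P.eval (sz x)) x (fun w hw => ?_) (fun i hi => ?_)
  · refine (hB (x, w)).trans (eval_mono B ?_)
    have h1 := sz_list_le w w.length 3 le_rfl fun b _ => sz_bool_le b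
    rw [sz_pair]
    simp only
    omega
  · rw [← hCF (x, i)]
    simp only
    constructor
    · exact fun h => h.2
    · exact fun h => ⟨hi, h⟩

end Pool.TQ
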