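import Pool.Agent.H74.TQ.Stmts

set_option autoImplicit false

namespace Pool.TQ

open TMLib Polynomial

namespace ADV

/-- type of the advice -/
abbrev A := Option Form × Option (List (List Bool)) × ℕ

/-- the certificates relative to the advice -/
def U (c : Ctx) (φ : Form) (a : A) : Prop :=
  (a.1.isSome = true ∧ c.PS (a.1.getD []) φ) ∨
  (a.1.isSome = false ∧
    ((a.2.1.isSome = true ∧ ((a.2.1.getD []).all fun κ => !c.solve (κ, φ)) = true) ∨
      (a.2.1.isSome = false ∧ c.UCert a.2.2 φ)))

lemma nppU {c : Ctx} (kp : KeyProps c) (sp : StrongProps c) (hs : PTime c.solve) :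
    NPp (fun p : Form × D => U c p.1 (TMLib.Fix.fix p.2 : A)) := by
  have e0 : PTime fun p : Form × D => (TMLib.Fix.fix p.2 : A) := by fun_prop
  have e1 : PTime fun p : Form × D => ((TMLib.Fix.fix p.2 : A)).1.isSome := by fun_prop
  have e2 : PTime fun p : Form × D => ((TMLib.Fix.fix p.2 : A)).2.1.isSome := by fun_prop
  refine NPp.or (NPp.and ?_ ?_) (NPp.and ?_ (NPp.or (NPp.and ?_ ?_) (NPp.and ?_ ?_)))
  · exact NPp.of_ptime (by fun_prop)
  · refine kp.nppPS.comp (g := fun p : Form × D =>
      (((TMLib.Fix.fix p.2 : A)).1.getD [], p.1)) ?_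
    fun_prop
  · refine NPp.of_ptime ?_
    exact (PTime.not e1).congr fun p => by cases ((TMLib.Fix.fix p.2 : A)).1.isSome <;> rfl
  · exact NPp.of_ptime (by fun_prop)
  · refine NPp.of_ptime ?_
    refine PTime.decide_true' ?_
    refine PTime.all (g := fun (p : Form × D) (κ : List Bool) => !c.solve (κ, p.1))
      (by fun_prop) ?_
    refine PTime.not ?_
    exact hs.comp (f := fun q : (Form × D) × List Bool => (q.2, q.1.1)) (by fun_prop)
  · refine NPp.of_ptime ?_
    exact (PTime.not e2).congr fun p => by cases ((TMLib.Fix.fix p.2 : A)).2.1.isSome <;> rfl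
  · refine sp.nppU.comp (g := fun p : Form × D => (((TMLib.Fix.fix p.2 : A)).2.2, p.1)) ?_
    fun_prop

lemma sz_bits (l : List Bool) : sz l ≤ 1 + 4 * l.length := by
  have := sz_list_le l l.length 3 le_rfl fun b _ => sz_bool_le b
  omega

end ADV

open ADV in
theorem adv : S_ADV := by
  classical
  intro K F c kp sp M hM hstar hlearn hpar
  obtain ⟨P, hPa⟩ := hpar (fun n => 5 * n + 2) (by fun_prop)
  obtain ⟨cex, hcex, hic, hlf, hcf, hls, hclen⟩ := hlearn P
  have pa := P.pa
  have pg := P.pg
  have ps := P.ps
  have pp := P.pp0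
  have pell : PTime P.ell := by unfold Par.ell hbits; fun_prop
  have pK : PTime P.K := by unfold Par.K; fun_prop
  have hpos : ∀ n, 1 ≤ P.K n := by
    intro n
    have h1 := P.hp0 n
    have h2 : P.p0 n ≤ P.K n := by unfold Par.K; omega
    omega
  obtain ⟨Av, m₀, hAv, pm₀, hspec⟩ := hstar (cstar c.solve P) P.K P.a hcf pK P.pa hpos hclen
  have pM := hM.pM
  let Ks : ℕ → List (List Bool) := fun n => learn c.solve P cex (n, (Av n).1)
  let cx : ℕ → Option Form := fun n => cex (n, Ks n)
  let a : ℕ → A := fun n => ((Av n).2, ((if (cx n).isSome = true then none else some (Ks n)),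
    max (m₀ n) (M n)))
  have fn : FPNP fun n : ℕ => n := FPNP.of_ptime PTime.id
  have fK : FPNP Ks := K.comp (g := learn c.solve P cex) hlf (K.pair fn (K.fst hAv))
  have fcx : FPNP cx := K.comp (g := cex) hcex (K.pair fn fK)
  have fa : FPNP a := by
    refine K.pair (K.snd hAv) (K.pair ?_ (FPNP.of_ptime (PTime.max pm₀ pM)))
    refine K.ite (c := fun n => (cx n).isSome = true) ?_ (FPNP.const _) ?_
    · exact K.pcomp (g := fun o : Option Form => decide (o.isSome = true)) (by fun_prop) fcx
    · exact K.pcomp (g := fun l : List (List Bool) => some l) (by fun_prop) fK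
  refine ⟨fun n => enc (a n), fun φ d => U c φ (TMLib.Fix.fix d), ?_, nppU kp sp hM.ptime, ?_⟩
  · exact K.pcomp (g := fun x : A => enc x) PTime.enc' fa
  intro n φ hφ
  simp only [TMLib.Fix.fix_enc]
  obtain ⟨h1, h2⟩ := hspec n
  cases hA : (Av n).2 with
  | some G =>
    -- a hard formula
    have hk := kp.key n G (h1 G hA) φ hφ
    have e1 : (a n).1 = some G := hA
    unfold U
    rw [e1]
    simp only [Option.isSome_some, Option.getD_some, true_and, Bool.true_eq_false, false_and,
      or_false]
    exact hk
  | none =>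
    obtain ⟨hlen, hstr⟩ := h2 hA
    have e1 : (a n).1 = none := hA
    cases hc : cx n with
    | none =>
      -- a cover
      have e2 : (a n).2.1 = some (Ks n) := by
        change (if (cx n).isSome = true then none else some (Ks n)) = _
        rw [hc]; simp
      unfold U
      rw [e1, e2]
      simp only [Option.isSome_none, Bool.false_eq_true, false_and, Option.isSome_some,
        Option.getD_some, true_and, Bool.true_eq_false, or_false, false_or, List.all_eq_true,
        Bool.not_eq_true']
      constructor
      · intro hns κ _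
        by_contra h
        exact hns (hM.sound κ φ (by simpa using h))
      · intro hall hs
        obtain ⟨κ, hκ, hκ'⟩ := hic.2 n (Ks n) hc φ hφ hs
        rw [hall κ hκ] at hκ'
        exact absurd hκ' (by simp)
    | some ψ =>
      -- no cover: no strong key
      have e2 : (a n).2.1 = none := by
        change (if (cx n).isSome = true then none else some (Ks n)) = _
        rw [hc]; simp
      have e3 : (a n).2.2 = max (m₀ n) (M n) := rfl
      unfold U
      rw [e1, e2, e3]
      simp only [Option.isSome_none, Bool.false_eq_true, false_and, true_and, false_or]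
      constructor
      · intro hns
        by_contra hU
        obtain ⟨π, hπ, hstrong⟩ := sp.strong _ φ hns hU
        have hsz : sz (φ, π) ≤ 5 * n + 2 := by
          have := sz_bits π
          rw [sz_pair]
          simp only
          omega
        obtain ⟨κ, hκ, hκ'⟩ := exists_bits (φ, π) (5 * n + 2) hsz
        have hκa : κ.length = P.a n := by rw [hPa]; exact hκ
        have hκd : Ctx.kdec κ = (φ, π) := hκ'
        have h3 := hstr (max (m₀ n) (M n)) (le_max_left _ _) ⟨κ, hκa, by rw [hκd]; exact hstrong⟩
        obtain ⟨hψ1, hψ2, hψ3⟩ := hic.1 n (Ks n) ψ hc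
        obtain ⟨κ', h4, h5⟩ := hls n (Av n).1 hlen ⟨κ, hκa, fun φ' h6 h7 =>
          hM.complete n (max (m₀ n) (M n)) κ φ' (le_max_right _ _) (by rw [hκd]; exact hstrong)
            h6 h7⟩ h3 ψ hψ1 hψ2
        rw [hψ3 κ' h4] at h5
        exact absurd h5 (by simp)
      · intro hU
        exact sp.soundU _ _ hU

end Pool.TQ
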