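import Pool.Agent.H74.TQ.Stmts

set_option autoImplicit false

namespace Pool.TQ

open TMLib Polynomial

namespace AVOID

lemma sz_bits (l : List Bool) : sz l ≤ 1 + 4 * l.length := by
  have := sz_list_le l l.length 3 le_rfl fun b _ => sz_bool_le b
  omega

lemma dec_length {f : List Bool → List Bool × List Bool} {k : ℕ}
    (h1 : ∀ x : List Bool, x.length = k → (f x).1.length = k)
    (h2 : ∀ x : List Bool, x.length = k → (f x).2.length = k) (p : List Bool) :
    ∀ e : List Bool, e.length = k → (dec f e p).length = k := by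
  induction p with
  | nil => intro e he; exact he
  | cons b p ih =>
    intro e he
    cases b
    · exact ih _ (h1 e he)
    · exact ih _ (h2 e he)

/-- strings of the wrong length are replaced by zeros -/
def norm (k : ℕ) (e : List Bool) : List Bool := if e.length = k then e else List.replicate k false

lemma norm_length (k : ℕ) (e : List Bool) : (norm k e).length = k := by
  unfold norm
  split_ifs with h
  · exact h
  · simp

lemma ptime_dec {f : ℕ × List Bool → List Bool × List Bool} {K : ℕ → ℕ} (hD : Double f K) :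
    PTime (fun p : ℕ × List Bool × List Bool =>
      dec (fun x => f (p.1, x)) (norm (K p.1) p.2.1) p.2.2) := by
  have pf := hD.pf
  have pK := hD.pK
  have hstep : PTime fun q : (ℕ × List Bool × List Bool) × List Bool × Bool =>
      (fun (a : ℕ × List Bool × List Bool) (e : List Bool) (b : Bool) =>
        bif b then (f (a.1, e)).2 else (f (a.1, e)).1) q.1 q.2.1 q.2.2 := by
    have e1 : PTime fun q : (ℕ × List Bool × List Bool) × List Bool × Bool => f (q.1.1, q.2.1) :=
      pf.comp (f := fun q : (ℕ × List Bool × List Bool) × List Bool × Bool => (q.1.1, q.2.1))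
        (by fun_prop)
    exact PTime.cond (by fun_prop) (PTime.snd e1) (PTime.fst e1)
  have hpK : PTime fun p : ℕ × List Bool × List Bool => K p.1 :=
    pK.comp (f := fun p : ℕ × List Bool × List Bool => p.1) (by fun_prop)
  have hinit : PTime fun p : ℕ × List Bool × List Bool => norm (K p.1) p.2.1 := by
    unfold norm
    refine PTime.ite ?_ (by fun_prop) ?_
    · exact PTime.eq (by fun_prop) hpK
    · exact PTime.replicate hpK (PTime.const _)
  refine PTime.foldl (α := ℕ × List Bool × List Bool) (β := Bool) (σ := List Bool)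
    (f := fun a e b => bif b then (f (a.1, e)).2 else (f (a.1, e)).1)
    (init := fun p => norm (K p.1) p.2.1) (l := fun p => p.2.2) hstep hinit (by fun_prop)
    (h := fun p => 1 + 4 * K p.1) ?_ ?_
  · obtain ⟨B, hB⟩ := hpK.exists_size_le
    refine ⟨1 + 4 * B, fun p => ?_⟩
    have h1 := hB p
    have e4 : eval (sz p) (4 : ℕ[X]) = 4 := by simp
    simp only [sz_nat, eval_add, eval_mul, eval_one, e4] at h1 ⊢
    omega
  · intro p l' _
    have h1 := dec_length (f := fun x => f (p.1, x)) (hD.len₁ p.1) (hD.len₂ p.1) l' _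
      (norm_length (K p.1) p.2.1)
    refine (sz_bits _).trans ?_
    unfold dec at h1
    simp only at h1 ⊢
    rw [h1]

end AVOID

open AVOID in
theorem avoid : S_AVOID := by
  classical
  intro K hL hSE hDBL hUPD hWB hWBP hBS F c kp C Kn m hS pm
  obtain ⟨hDb, pull, hpull, hpull'⟩ := hDBL K hSE C Kn hS
  obtain ⟨FF, pFF, hFF⟩ := hWB K hL (dbl C Kn) Kn hDb
  obtain ⟨upd, hupd, hupd'⟩ := hUPD K hSE F (dbl C Kn) Kn hDb
  have wp : ∀ n, WBProps (fun x => dbl C Kn (n, x)) (Kn n) := fun n =>
    hWBP hL _ _ (hDb.pos n) (hDb.len₁ n) (hDb.len₂ n)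
  have pKn := hS.pK
  -- the predicate theta
  have hθe : NPp (fun p : (ℕ × List Bool) × List Bool =>
      (fun (a : ℕ × List Bool) (e : List Bool) => e.length = Kn a.1 ∧
        c.E (m a.1) (FF (a.1, (a.2, e)))) p.1 p.2) := by
    refine NPp.and ?_ ?_
    · refine NPp.of_ptime ?_
      exact PTime.eq (by fun_prop) (pKn.comp (f := fun p : (ℕ × List Bool) × List Bool => p.1.1)
        (by fun_prop))
    · refine kp.nppE.comp (g := fun p : (ℕ × List Bool) × List Bool =>
        (m p.1.1, FF (p.1.1, (p.1.2, p.2)))) ?_
      refine PTime.pair (pm.comp (f := fun p : (ℕ × List Bool) × List Bool => p.1.1)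
        (by fun_prop)) (pFF.comp (f := fun p : (ℕ × List Bool) × List Bool =>
          (p.1.1, (p.1.2, p.2))) (by fun_prop))
  have hq : PTime fun p : ℕ × List Bool => 1 + 4 * Kn p.1 := by
    have : PTime fun p : ℕ × List Bool => Kn p.1 :=
      pKn.comp (f := fun p : ℕ × List Bool => p.1) (by fun_prop)
    fun_prop
  have hθ' : NPp (fun p : ℕ × List Bool => (fun n i => ∃ e : List Bool,
      e.length = Kn n ∧ c.E (m n) (FF (n, (i, e)))) p.1 p.2) := by
    refine (NPp.exists_le (R := fun (a : ℕ × List Bool) (e : List Bool) => e.length = Kn a.1 ∧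
        c.E (m a.1) (FF (a.1, (a.2, e)))) hθe hq).congr fun p => ?_
    constructor
    · rintro ⟨e, h1, h2⟩
      exact ⟨e, by have := sz_bits e; rw [h1] at this; exact this, h1, h2⟩
    · rintro ⟨e, -, h1, h2⟩
      exact ⟨e, h1, h2⟩
  obtain ⟨bs, hbs, hbs'⟩ := @hBS K hL ℕ _ _ (fun n i => ∃ e : List Bool,
      e.length = Kn n ∧ c.E (m n) (FF (n, (i, e)))) Kn hθ' pKn
  obtain ⟨wt, hwt, hwt1, hwt2⟩ := @hSE K (ℕ × List Bool) (List Bool) _ _ _ _
    (fun (a : ℕ × List Bool) (e : List Bool) => e.length = Kn a.1 ∧
      c.E (m a.1) (FF (a.1, (a.2, e)))) (fun p => 1 + 4 * Kn p.1) hθe hq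
  -- the algorithm
  have fbs1 : FPNP fun n => (bs n).1 := K.fst hbs
  have fbs2 : FPNP fun n => (bs n).2 := K.snd hbs
  have fn : FPNP fun n : ℕ => n := FPNP.of_ptime PTime.id
  have fe1 : FPNP fun n => (wt (n, false :: (bs n).1)).getD [] := by
    refine K.pcomp (g := fun o : Option (List Bool) => o.getD []) (by fun_prop) ?_
    refine K.comp (g := wt) (f := fun n => (n, false :: (bs n).1)) hwt ?_
    exact K.pair fn (K.pcomp (g := fun l : List Bool => false :: l) (by fun_prop) fbs1)
  have ftg : FPNP fun n => (dec (fun x => dbl C Kn (n, x)) (norm (Kn n) (bs n).1)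
      (bs n).1).map not := by
    refine K.pcomp (g := fun l : List Bool => l.map not)
      (PTime.map PTime.id (g := fun _ b => !b) (by fun_prop)) ?_
    exact K.pcomp (g := fun p : ℕ × List Bool × List Bool =>
      dec (fun x => dbl C Kn (p.1, x)) (norm (Kn p.1) p.2.1) p.2.2) (ptime_dec hDb)
      (K.pair fn (K.pair fbs1 fbs1))
  let u : ℕ → List Bool × Option (List Bool × List Bool) := fun n =>
    upd (n, ((wt (n, false :: (bs n).1)).getD [], ((bs n).1,
      (dec (fun x => dbl C Kn (n, x)) (norm (Kn n) (bs n).1) (bs n).1).map not)))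
  have fu : FPNP u := K.comp (g := upd) hupd (K.pair fn (K.pair fe1 (K.pair fbs1 ftg)))
  have fpl : FPNP fun n => pull (n, (u n).2.getD ([], [])) := by
    refine K.comp (g := pull) hpull (K.pair fn ?_)
    exact K.pcomp (g := fun o : Option (List Bool × List Bool) => o.getD ([], [])) (by fun_prop)
      (K.snd fu)
  have fF : FPNP fun n => FF (n, ((bs n).2, (u n).1)) :=
    K.pcomp pFF (K.pair fn (K.pair fbs2 (K.fst fu)))
  let θ₀ : ℕ → Prop := fun n => ∃ e : List Bool,
      e.length = Kn n ∧ c.E (m n) (FF (n, (List.replicate (Kn n + 1) false, e)))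
  have fθ : FPNP fun n => decide (θ₀ n) := by
    refine K.npp (R := θ₀) ?_
    refine hθ'.comp (g := fun n : ℕ => (n, List.replicate (Kn n + 1) false)) ?_
    exact PTime.pair PTime.id (PTime.replicate (PTime.succ pKn) (PTime.const _))
  refine ⟨fun n => if θ₀ n then
      (if (u n).2.isSome = true then (pull (n, (u n).2.getD ([], [])), none)
        else ([], some (FF (n, ((bs n).2, (u n).1)))))
      else ([], some (FF (n, (List.replicate (Kn n + 1) false, List.replicate (Kn n) false)))),
    ?_, ?_⟩
  · refine K.ite fθ (K.ite ?_ ?_ ?_) ?_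
    · refine K.pcomp (g := fun o : Option (List Bool × List Bool) => decide (o.isSome = true))
        (by fun_prop) (K.snd fu)
    · exact K.pair fpl (FPNP.const _)
    · exact K.pair (FPNP.const _) (K.pcomp (g := fun F : Form => some F) (by fun_prop) fF)
    · refine FPNP.of_ptime (PTime.pair (PTime.const _) (PTime.some ?_))
      refine pFF.comp (f := fun n : ℕ =>
        (n, (List.replicate (Kn n + 1) false, List.replicate (Kn n) false))) ?_
      exact PTime.pair PTime.id (PTime.pair (PTime.replicate (PTime.succ pKn) (PTime.const _))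
        (PTime.replicate pKn (PTime.const _)))
  · intro n
    by_cases h0 : θ₀ n
    · -- binary search succeeds
      have htop : ¬ ∃ e : List Bool, e.length = Kn n ∧
          c.E (m n) (FF (n, (true :: List.replicate (Kn n) false, e))) := by
        rintro ⟨e, he, hE⟩
        exact kp.sound _ _ hE ((hFF n _ e he).2 ((wp n).top e he))
      obtain ⟨hl, hlo, hhi, hj⟩ := hbs' n h0 htop
      -- the witness
      have hw : ∃ e, wt (n, false :: (bs n).1) = some e := by
        cases h : wt (n, false :: (bs n).1) with
        | some e => exact ⟨e, rfl⟩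
        | none =>
          obtain ⟨e, he, hE⟩ := hlo
          exact absurd ⟨he, hE⟩ (hwt2 _ h e (by have := sz_bits e; rw [he] at this; exact this))
      obtain ⟨e, he⟩ := hw
      obtain ⟨-, he1, he2⟩ := hwt1 _ _ he
      simp only at he1 he2
      have hnw : ¬ WrongBefore (fun x => dbl C Kn (n, x)) (Kn n) (false :: (bs n).1) e :=
        fun h => kp.sound _ _ he2 ((hFF n _ e he1).2 h)
      have htg : (dec (fun x => dbl C Kn (n, x)) (norm (Kn n) (bs n).1) (bs n).1).map not =
          target (fun x => dbl C Kn (n, x)) (bs n).1 := by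
        unfold target AVOID.norm
        rw [if_pos hl]
      have hu : u n = upd (n, (e, ((bs n).1, target (fun x => dbl C Kn (n, x)) (bs n).1))) := by
        change upd (n, ((wt (n, false :: (bs n).1)).getD [], ((bs n).1,
          (dec (fun x => dbl C Kn (n, x)) (norm (Kn n) (bs n).1) (bs n).1).map not))) = _
        rw [he, htg]
        rfl
      have htl : (target (fun x => dbl C Kn (n, x)) (bs n).1).length = Kn n := by
        unfold target
        rw [List.length_map]
        exact dec_length (hDb.len₁ n) (hDb.len₂ n) _ _ hl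
      obtain ⟨hA, hB⟩ := hupd' n e (bs n).1 _ he1 htl
      rw [← hu] at hA hB
      simp only [h0, if_true]
      cases h : (u n).2 with
      | some lr =>
        obtain ⟨l, r⟩ := lr
        obtain ⟨h1, h2, h3⟩ := hA l r h
        have h4 := hpull' n l r h1 h2 h3
        simp only [Option.isSome_some, if_true, Option.getD_some]
        exact ⟨fun F hF => by simp at hF, fun _ => h4⟩
      | none =>
        obtain ⟨h1, h2⟩ := hB h
        simp only [Option.isSome_none, Bool.false_eq_true, if_false]
        refine ⟨fun F hF => ?_, fun hF => by simp at hF⟩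
        have hF' : FF (n, ((bs n).2, (u n).1)) = F := by simpa using hF
        subst hF'
        refine ⟨fun hs => ?_, fun hE => hhi ⟨(u n).1, h1, hE⟩⟩
        exact (wp n).next e (u n).1 (bs n).1 (bs n).2 hl hj hnw
          (fun j hjl => h2 j (by rw [hjl, hl])) ((hFF n _ _ h1).1 hs)
    · -- the trivial statement is hard
      simp only [h0, if_false]
      refine ⟨fun F hF => ?_, fun hF => by simp at hF⟩
      have hF' : FF (n, (List.replicate (Kn n + 1) false, List.replicate (Kn n) false)) = F := by
        simpa using hF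
      subst hF'
      refine ⟨fun hs => ?_, fun hE => h0 ⟨List.replicate (Kn n) false, by simp, hE⟩⟩
      exact (wp n).zero _ ((hFF n _ _ (by simp)).1 hs)

end Pool.TQ
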