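import Pool.Agent.H74.TQ.Stmts

set_option autoImplicit false

namespace Pool.TQ

open TMLib Polynomial

namespace BIND

lemma trans_add {α β : Type} (Q : α × List Bool → Form) (Q₁ : α × List Bool → Form)
    (Q₂ : β × List Bool → Form) (x : α) (y : β) (N : ℕ)
    (h1 : ∀ w : List Bool, w.length < N → Q (x, w) = Q₁ (x, w))
    (h2 : ∀ w : List Bool, Q (x, trans Q₁ x N ++ w) = Q₂ (y, w)) (k : ℕ) :
    trans Q x (N + k) = trans Q₁ x N ++ trans Q₂ y k := by
  have h3 : ∀ M ≤ N, trans Q x M = trans Q₁ x M := by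
    intro M hM
    induction M with
    | zero => rfl
    | succ M ih =>
      have h4 := ih (by omega)
      simp only [trans, h4]
      rw [h1 _ (by rw [trans_length]; omega)]
  induction k with
  | zero => simpa [trans] using h3 N le_rfl
  | succ k ih =>
    rw [← Nat.add_assoc]
    simp only [trans, ih, h2, List.append_assoc]

end BIND

theorem bind : S_BIND := by
  intro α β γ _ _ _ f g hf hg
  obtain ⟨B, hB⟩ := hf.size
  obtain ⟨Q₁, O₁, P₁, hQ₁, hO₁, h1⟩ := hf
  obtain ⟨Q₂, O₂, P₂, hQ₂, hO₂, h2⟩ := hg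
  refine ⟨fun p => if p.2.length < P₁.eval (sz p.1) then Q₁ p else
      Q₂ ((p.1, O₁ (p.1, p.2.take (P₁.eval (sz p.1)))), p.2.drop (P₁.eval (sz p.1))),
    fun p => O₂ ((p.1, O₁ (p.1, p.2.take (P₁.eval (sz p.1)))), p.2.drop (P₁.eval (sz p.1))),
    P₁ + P₂.comp (1 + X + B), ?_, ?_, ?_⟩
  · have e1 : PTime fun p : α × List Bool => O₁ (p.1, p.2.take (P₁.eval (sz p.1))) :=
      hO₁.comp (f := fun p : α × List Bool => (p.1, p.2.take (P₁.eval (sz p.1)))) (by fun_prop)
    have e2 : PTime fun p : α × List Bool =>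
        Q₂ ((p.1, O₁ (p.1, p.2.take (P₁.eval (sz p.1)))), p.2.drop (P₁.eval (sz p.1))) :=
      hQ₂.comp (f := fun p : α × List Bool =>
        ((p.1, O₁ (p.1, p.2.take (P₁.eval (sz p.1)))), p.2.drop (P₁.eval (sz p.1)))) (by fun_prop)
    refine PTime.ite ?_ hQ₁ e2
    fun_prop
  · have e1 : PTime fun p : α × List Bool => O₁ (p.1, p.2.take (P₁.eval (sz p.1))) :=
      hO₁.comp (f := fun p : α × List Bool => (p.1, p.2.take (P₁.eval (sz p.1)))) (by fun_prop)
    exact hO₂.comp (f := fun p : α × List Bool =>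
        ((p.1, O₁ (p.1, p.2.take (P₁.eval (sz p.1)))), p.2.drop (P₁.eval (sz p.1)))) (by fun_prop)
  · intro x N hN
    simp only [eval_add, eval_comp, eval_X, eval_one] at hN
    obtain ⟨k, rfl⟩ := Nat.exists_eq_add_of_le (show P₁.eval (sz x) ≤ N by omega)
    have h3 : O₁ (x, trans Q₁ x (P₁.eval (sz x))) = f x := h1 x _ le_rfl
    have hlen : (trans Q₁ x (P₁.eval (sz x))).length = P₁.eval (sz x) := trans_length _ _ _
    have h4 := BIND.trans_add (fun p => if p.2.length < P₁.eval (sz p.1) then Q₁ p else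
      Q₂ ((p.1, O₁ (p.1, p.2.take (P₁.eval (sz p.1)))), p.2.drop (P₁.eval (sz p.1)))) Q₁ Q₂ x
      (x, f x) (P₁.eval (sz x)) (fun w hw => by simp [hw]) (fun w => by
        have e : ¬ (trans Q₁ x (P₁.eval (sz x)) ++ w).length < P₁.eval (sz x) := by
          rw [List.length_append, hlen]; omega
        simp only [e, if_false]
        rw [List.take_left' hlen, List.drop_left' hlen, h3]) k
    rw [h4]
    simp only
    rw [List.take_left' hlen, List.drop_left' hlen, h3]
    refine h2 (x, f x) k ?_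
    have h5 := eval_mono P₂ (show sz (x, f x) ≤ 1 + sz x + B.eval (sz x) by
      have := hB x
      rw [sz_pair]; simp only; omega)
    omega

end Pool.TQ
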