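import Pool.Agent.H74.TQ.Defs

/-!
# Calculus for `FPNP`
-/

set_option autoImplicit false

namespace Pool.TQ

open TMLib Polynomial

variable {α β γ δ σ : Type} [Enc α] [Enc β] [Enc γ] [Enc δ] [Enc σ]

omit [Enc α] in
lemma trans_length (Q : α × List Bool → Form) (x : α) (n : ℕ) : (trans Q x n).length = n := by
  induction n with
  | zero => rfl
  | succ n ih => simp [trans, ih]

omit [Enc α] in
lemma trans_pfx (Q : α × List Bool → Form) (x : α) (m n : ℕ) :
    trans Q x m <+: trans Q x (m + n) := by
  induction n with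
  | zero => simp
  | succ n ih => exact ih.trans ⟨_, rfl⟩

omit [Enc α] in
lemma trans_take (Q : α × List Bool → Form) (x : α) {m n : ℕ} (h : m ≤ n) :
    (trans Q x n).take m = trans Q x m := by
  obtain ⟨k, rfl⟩ := Nat.exists_eq_add_of_le h
  have h1 := trans_pfx Q x m k
  rw [List.prefix_iff_eq_take, trans_length] at h1
  exact h1.symm

/-- the basic closure properties; everything else is derived from them -/
structure Calc : Prop where
  /-- composition, keeping the input -/
  bind : ∀ {α β γ : Type} [Enc α] [Enc β] [Enc γ] {f : α → β} {g : α × β → γ},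
    FPNP f → FPNP g → FPNP (fun x => g (x, f x))
  /-- bounded iteration -/
  iter : ∀ {α β : Type} [Enc α] [Enc β] {step : β → β} {s : α → β} {n : α → ℕ} {h : α → ℕ},
    FPNP step → FPNP s → PTime n → PB h →
    (∀ x i, i ≤ n x → sz (step^[i] (s x)) ≤ h x) → FPNP (fun x => step^[n x] (s x))
  /-- Cook-Levin -/
  toSat : ∀ {α : Type} [Enc α] [TMLib.Fix α] {R : α → Prop}, NPp R →
    ∃ f : α → Form, PTime f ∧ ∀ x, R x ↔ Sat (f x)

namespace FPNP

lemma congr {f g : α → β} (hf : FPNP f) (h : ∀ x, g x = f x) : FPNP g := by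
  rwa [show g = f from funext h]

lemma of_ptime {f : α → β} (hf : PTime f) : FPNP f :=
  ⟨fun _ => [], fun p => f p.1, 0, PTime.const _, hf.comp (PTime.fst PTime.id),
    fun _ _ _ => rfl⟩

lemma const (b : β) : FPNP (fun _ : α => b) := of_ptime (PTime.const b)

lemma satb : FPNP satb := by
  refine ⟨fun p => p.1, fun p => p.2.headD false, 1, PTime.fst PTime.id, ?_, fun x N hN => ?_⟩
  · exact (PTime.getD (PTime.head? (PTime.snd PTime.id)) (PTime.const false)).congr
      fun s => by cases s.2 <;> rfl
  · have h1 : (1 : ℕ) ≤ N := by simpa using hN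
    have h2 := trans_take (fun p : Form × List Bool => p.1) x h1
    have h3 : (trans (fun p : Form × List Bool => p.1) x N).headD false =
        ((trans (fun p : Form × List Bool => p.1) x N).take 1).headD false := by
      cases trans (fun p : Form × List Bool => p.1) x N <;> simp
    simp only
    rw [h3, h2]
    simp [trans]

/-- outputs have polynomial size -/
lemma size {f : α → β} (hf : FPNP f) : ∃ B : ℕ[X], ∀ x, sz (f x) ≤ B.eval (sz x) := by
  obtain ⟨Q, O, P, -, hO, h⟩ := hf
  obtain ⟨B, hB⟩ := hO.exists_size_le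
  refine ⟨B.comp (1 + X + (1 + P * 4)), fun x => ?_⟩
  rw [← h x _ le_rfl]
  refine (hB _).trans ?_
  rw [eval_comp]
  refine eval_mono B ?_
  have h1 := sz_list_le (trans Q x (P.eval (sz x))) (P.eval (sz x)) 3
    (by rw [trans_length]) (fun b _ => sz_bool_le b)
  have e4 : eval (sz x) (4 : ℕ[X]) = 4 := by simp
  simp only [sz_pair, eval_add, eval_mul, eval_one, eval_X, e4]
  omega

lemma pb {f : α → β} (hf : FPNP f) : PB (fun x => sz (f x)) := hf.size

end FPNP

namespace Calc

variable (K : Calc)

include K

lemma comp {g : β → γ} {f : α → β} (hg : FPNP g) (hf : FPNP f) : FPNP (fun x => g (f x)) := by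
  obtain ⟨Q, O, P, hQ, hO, h⟩ := hg
  refine K.bind (g := fun p : α × β => g p.2) hf ⟨fun p => Q (p.1.2, p.2), fun p => O (p.1.2, p.2),
    P.comp X, hQ.comp (f := fun p : (α × β) × List Bool => (p.1.2, p.2)) (by fun_prop),
    hO.comp (f := fun p : (α × β) × List Bool => (p.1.2, p.2)) (by fun_prop), fun x N hN => ?_⟩
  have h1 := eval_mono P (show sz x.2 ≤ sz x by rw [sz_pair]; omega)
  rw [comp_X] at hN
  have h2 : trans (fun p : (α × β) × List Bool => Q (p.1.2, p.2)) x N = trans Q x.2 N := by
    induction N with
    | zero => rfl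
    | succ N ih =>
      clear ih
      have : ∀ M, trans (fun p : (α × β) × List Bool => Q (p.1.2, p.2)) x M = trans Q x.2 M := by
        intro M
        induction M with
        | zero => rfl
        | succ M ih => simp only [trans, ih]
      exact this _
  simp only
  rw [h2]
  exact h x.2 N (by omega)

lemma pcomp {g : β → γ} {f : α → β} (hg : PTime g) (hf : FPNP f) : FPNP (fun x => g (f x)) :=
  K.comp (FPNP.of_ptime hg) hf

lemma compp {g : β → γ} {f : α → β} (hg : FPNP g) (hf : PTime f) : FPNP (fun x => g (f x)) :=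
  K.comp hg (FPNP.of_ptime hf)

lemma pair {f : α → β} {g : α → γ} (hf : FPNP f) (hg : FPNP g) : FPNP (fun x => (f x, g x)) := by
  have h1 : FPNP (fun p : α × β => g p.1) := K.compp hg (PTime.fst PTime.id)
  have h2 : FPNP (fun p : α × β => (p.2, g p.1)) := by
    have := K.bind (g := fun q : (α × β) × γ => (q.1.2, q.2)) h1
      (FPNP.of_ptime (by fun_prop))
    exact this
  exact K.bind hf h2

lemma fst {f : α → β × γ} (hf : FPNP f) : FPNP (fun x => (f x).1) :=
  K.pcomp (g := fun p : β × γ => p.1) (by fun_prop) hf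

lemma snd {f : α → β × γ} (hf : FPNP f) : FPNP (fun x => (f x).2) :=
  K.pcomp (g := fun p : β × γ => p.2) (by fun_prop) hf

/-- case distinction on a boolean -/
lemma cond {c : α → Bool} {f g : α → β} (hc : FPNP c) (hf : FPNP f) (hg : FPNP g) :
    FPNP (fun x => bif c x then f x else g x) :=
  K.pcomp (g := fun p : Bool × β × β => bif p.1 then p.2.1 else p.2.2) (by fun_prop)
    (K.pair hc (K.pair hf hg))

/-- case distinction on a decidable proposition -/
lemma ite {c : α → Prop} [∀ x, Decidable (c x)] {f g : α → β} (hc : FPNP fun x => decide (c x))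
    (hf : FPNP f) (hg : FPNP g) : FPNP (fun x => if c x then f x else g x) := by
  refine (K.cond hc hf hg).congr fun x => ?_
  by_cases h : c x <;> simp [h]

/-- NP predicates can be decided -/
lemma npp [TMLib.Fix α] {R : α → Prop} [∀ x, Decidable (R x)] (hR : NPp R) :
    FPNP (fun x => decide (R x)) := by
  obtain ⟨f, hf, h⟩ := K.toSat hR
  refine (K.compp FPNP.satb hf).congr fun x => ?_
  rw [Bool.eq_iff_iff, decide_eq_true_eq, satb_iff, h]

end Calc

/-- satisfiability is an NP predicate -/
lemma npp_sat : NPp (fun φ : Form => Sat φ) := by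
  have hfv : PTime (fun x : Form => vars x) := ptime_vars PTime.id
  obtain ⟨B, hB⟩ := hfv.exists_size_le
  refine ⟨fun φ w => decide (satBy φ (TMLib.Fix.fix w)), B, ?_, ?_, ?_⟩
  · refine ptime_satBy (by fun_prop) (by fun_prop)
  · intro φ w hw
    exact sat_of_satBy (by simpa using hw)
  · intro φ hφ
    obtain ⟨tr, h4, h5⟩ := exists_satBy hφ
    exact ⟨enc tr, h4.trans (hB φ), by simpa using h5⟩

lemma npp_sat' {f : α → Form} (hf : PTime f) : NPp (fun x => Sat (f x)) := npp_sat.comp hf

/-- parsing inverts the encoding, also with padding -/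
lemma parse_pad (x : D) (k : ℕ) : parse (x.code ++ List.replicate k false) = x := by
  have h : ∀ (k : ℕ) (s : List D), ∃ t, (List.replicate k false).foldl parseStep s = t := fun k s => ⟨_, rfl⟩
  unfold parse
  rw [List.reverse_append, List.foldl_append, parse_foldl]
  rfl

/-- every object of size at most `N` is described by a bit string of length `N` -/
lemma exists_bits [TMLib.Fix β] (b : β) (N : ℕ) (h : sz b ≤ N) :
    ∃ l : List Bool, l.length = N ∧ (TMLib.Fix.fix (parse l) : β) = b := by
  refine ⟨(enc b).code ++ List.replicate (N - sz b) false, ?_, ?_⟩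
  · rw [List.length_append, D.length_code, List.length_replicate]
    have : (enc b).size = sz b := rfl
    omega
  · rw [parse_pad, TMLib.Fix.fix_enc]

/-- `Option` has a decoding -/
instance [TMLib.Fix α] : TMLib.Fix (Option α) where
  fix d := (d.spine.map TMLib.Fix.fix).head?
  fix_enc o := by
    cases o with
    | none => rfl
    | some a => simp [D.spine]
  ptime := by fun_prop

end Pool.TQ
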