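import Pool.Agent.H74.TQ.Stmts

set_option autoImplicit false

namespace Pool.TQ

open TMLib Polynomial

namespace DBL

lemma sz_bits (l : List Bool) : sz l ≤ 1 + 4 * l.length := by
  have := sz_list_le l l.length 3 le_rfl fun b _ => sz_bool_le b
  omega

/-- strings of the wrong length are replaced by zeros -/
def nrm (k : ℕ) (e : List Bool) : List Bool := if e.length = k then e else List.replicate k false

lemma nrm_length (k : ℕ) (e : List Bool) : (nrm k e).length = k := by
  unfold nrm
  split_ifs with h
  · exact h
  · simp

lemma step_inv {C : ℕ × List Bool → List Bool} {K : ℕ → ℕ} (hS : Stretch C K) (n : ℕ) (i : ℕ) :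
    ∀ x o : List Bool, x.length = K n → ((stepC C)^[i] (n, x, o)).1 = n ∧
      ((stepC C)^[i] (n, x, o)).2.1.length = K n ∧
      ((stepC C)^[i] (n, x, o)).2.2.length = o.length + i := by
  induction i with
  | zero => intro x o hx; exact ⟨rfl, hx, rfl⟩
  | succ i ih =>
    intro x o hx
    rw [Function.iterate_succ_apply]
    have h1 := hS.len n x hx
    have h2 := ih (C (n, x)).tail ((C (n, x)).headD false :: o) (by
      rw [List.length_tail, h1]; rfl)
    refine ⟨h2.1, h2.2.1, h2.2.2.trans ?_⟩
    simp only [List.length_cons]
    omega

/-- one backward step -/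
def pst (wt : ℕ × List Bool → Option (List Bool))
    (s : ℕ × List Bool × Option (List Bool) × List Bool) :
    ℕ × List Bool × Option (List Bool) × List Bool :=
  if s.2.2.1.isSome = true then s else if s.2.2.2.isEmpty = true then s else
    (s.1, (wt (s.1, s.2.2.2.head?.getD false :: s.2.1)).getD s.2.1,
      (if (wt (s.1, s.2.2.2.head?.getD false :: s.2.1)).isSome = true then none
        else some (s.2.2.2.head?.getD false :: s.2.1)), s.2.2.2.tail)

end DBL

open DBL in
theorem dbl' : S_DBL := by
  classical
  intro K hSE C Kn hS
  have pC := hS.pC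
  have pK := hS.pK
  have pK1 : PTime fun p : ℕ × List Bool => Kn p.1 :=
    pK.comp (f := fun p : ℕ × List Bool => p.1) (by fun_prop)
  have hstep : PTime (stepC C) := by
    have e1 : PTime fun s : ℕ × List Bool × List Bool => C (s.1, s.2.1) :=
      pC.comp (f := fun s : ℕ × List Bool × List Bool => (s.1, s.2.1)) (by fun_prop)
    have e2 : PTime fun s : ℕ × List Bool × List Bool => (C (s.1, s.2.1)).headD false :=
      (PTime.getD (PTime.head? e1) (PTime.const false)).congr fun s => by
        cases C (s.1, s.2.1) <;> rfl
    unfold stepC
    fun_prop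
  have hD : Double (dbl C Kn) Kn := by
    refine ⟨?_, pK, hS.pos, ?_, ?_⟩
    · have h1 : PTime fun p : ℕ × List Bool =>
          ((stepC C)^[Kn p.1] (p.1, nrm (Kn p.1) p.2, [])) := by
        refine PTime.iter (f := stepC C) (s := fun p : ℕ × List Bool => (p.1, nrm (Kn p.1) p.2, []))
          hstep ?_ pK1 (h := fun p => 2 + sz p.1 + (1 + 4 * Kn p.1) + (1 + 4 * Kn p.1)) ?_ ?_
        · refine PTime.pair (by fun_prop) (PTime.pair ?_ (PTime.const _))
          unfold nrm
          exact PTime.ite (PTime.eq (by fun_prop) pK1) (by fun_prop)
            (PTime.replicate pK1 (PTime.const _))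
        · have e : PTime fun p : ℕ × List Bool =>
              2 + sz p.1 + (1 + 4 * Kn p.1) + (1 + 4 * Kn p.1) := by fun_prop
          obtain ⟨B, hB⟩ := e.exists_size_le
          refine ⟨B, fun p => ?_⟩
          have := hB p
          simp only [sz_nat] at this
          simp only [sz_nat]
          omega
        · intro p i hi
          obtain ⟨e1, e2, e3⟩ := step_inv hS p.1 i (nrm (Kn p.1) p.2) [] (nrm_length _ _)
          rw [sz_pair, sz_pair, e1]
          have e4 := sz_bits ((stepC C)^[i] (p.1, nrm (Kn p.1) p.2, [])).2.1
          have e5 := sz_bits ((stepC C)^[i] (p.1, nrm (Kn p.1) p.2, [])).2.2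
          rw [e2] at e4
          rw [e3, List.length_nil] at e5
          omega
      unfold dbl
      refine (PTime.ite (c := fun p : ℕ × List Bool => p.2.length = Kn p.1)
        (PTime.eq (by fun_prop) pK1) (PTime.snd h1) (PTime.const ([], []))).congr fun p => ?_
      split_ifs with h
      · unfold nrm
        rw [if_pos h]
      · rfl
    · intro n x hx
      have h1 := (step_inv hS n (Kn n) x [] hx).2.1
      unfold dbl
      rw [if_pos hx]
      exact h1
    · intro n x hx
      have h1 := (step_inv hS n (Kn n) x [] hx).2.2
      unfold dbl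
      rw [if_pos hx]
      simpa using h1
  refine ⟨hD, ?_⟩
  -- inversion of one step
  have hR : NPp (fun p : (ℕ × List Bool) × List Bool =>
      (fun (a : ℕ × List Bool) (x : List Bool) => x.length = Kn a.1 ∧ C (a.1, x) = a.2)
        p.1 p.2) := by
    refine NPp.and (NPp.of_ptime ?_) (NPp.of_ptime ?_)
    · exact PTime.eq (by fun_prop) (pK.comp (f := fun p : (ℕ × List Bool) × List Bool => p.1.1)
        (by fun_prop))
    · exact PTime.eq (pC.comp (f := fun p : (ℕ × List Bool) × List Bool => (p.1.1, p.2))
        (by fun_prop)) (by fun_prop)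
  have hq : PTime fun p : ℕ × List Bool => 1 + 4 * Kn p.1 := by fun_prop
  obtain ⟨wt, hwt, hwt1, hwt2⟩ := @hSE K (ℕ × List Bool) (List Bool) _ _ _ _
    (fun (a : ℕ × List Bool) (x : List Bool) => x.length = Kn a.1 ∧ C (a.1, x) = a.2)
    (fun p => 1 + 4 * Kn p.1) hR hq
  have fstep : FPNP (pst wt) := by
    have f1 : FPNP fun s : ℕ × List Bool × Option (List Bool) × List Bool =>
        s.2.2.2.head?.getD false :: s.2.1 := FPNP.of_ptime (by fun_prop)
    have f2 : FPNP fun s : ℕ × List Bool × Option (List Bool) × List Bool =>
        wt (s.1, s.2.2.2.head?.getD false :: s.2.1) :=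
      K.comp (g := wt) hwt (K.pair (FPNP.of_ptime (by fun_prop)) f1)
    have f3 : FPNP fun s : ℕ × List Bool × Option (List Bool) × List Bool =>
        decide ((wt (s.1, s.2.2.2.head?.getD false :: s.2.1)).isSome = true) :=
      K.pcomp (g := fun o : Option (List Bool) => decide (o.isSome = true)) (by fun_prop) f2
    refine K.ite (FPNP.of_ptime (by fun_prop)) (FPNP.of_ptime (by fun_prop))
      (K.ite (FPNP.of_ptime (by fun_prop)) (FPNP.of_ptime (by fun_prop)) ?_)
    refine K.pair (FPNP.of_ptime (by fun_prop)) (K.pair ?_ (K.pair (K.ite f3 (FPNP.const _) ?_)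
      (FPNP.of_ptime (by fun_prop))))
    · exact K.pcomp (g := fun p : Option (List Bool) × List Bool => p.1.getD p.2) (by fun_prop)
        (K.pair f2 (FPNP.of_ptime (by fun_prop)))
    · exact K.pcomp (g := fun l : List Bool => some l) (by fun_prop) f1
  -- sizes
  have hsize : ∀ (n : ℕ) (l r : List Bool) (i : ℕ),
      ((pst wt)^[i] (n, l, none, r)).1 = n ∧
      ((pst wt)^[i] (n, l, none, r)).2.1.length ≤ l.length + Kn n ∧
      (∀ y, ((pst wt)^[i] (n, l, none, r)).2.2.1 = some y → y.length ≤ l.length + Kn n + 1) ∧
      ((pst wt)^[i] (n, l, none, r)).2.2.2.length ≤ r.length := by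
    intro n l r i
    induction i with
    | zero => exact ⟨rfl, by simp, fun y hy => by simp at hy, le_rfl⟩
    | succ i ih =>
      rw [Function.iterate_succ_apply']
      generalize (pst wt)^[i] (n, l, none, r) = s at ih
      obtain ⟨n', x, o, t⟩ := s
      obtain ⟨e1, e2, e3, e4⟩ := ih
      simp only at e1 e2 e3 e4
      subst e1
      by_cases h1 : (n', x, o, t).2.2.1.isSome = true
      · have e : pst wt (n', x, o, t) = (n', x, o, t) := by unfold pst; rw [if_pos h1]
        rw [e]
        exact ⟨rfl, e2, e3, e4⟩
      · by_cases h2 : (n', x, o, t).2.2.2.isEmpty = true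
        · have e : pst wt (n', x, o, t) = (n', x, o, t) := by
            unfold pst; rw [if_neg h1, if_pos h2]
          rw [e]
          exact ⟨rfl, e2, e3, e4⟩
        · have e : pst wt (n', x, o, t) = (n', (wt (n', t.head?.getD false :: x)).getD x,
              (if (wt (n', t.head?.getD false :: x)).isSome = true then none
                else some (t.head?.getD false :: x)), t.tail) := by
            unfold pst; rw [if_neg h1, if_neg h2]
          rw [e]
          refine ⟨rfl, ?_, ?_, ?_⟩
          · simp only
            cases hw : wt (n', t.head?.getD false :: x) with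
            | none => simpa using e2
            | some x' =>
              have := (hwt1 _ _ hw).2.1
              simp only at this
              simp only [Option.getD_some]
              omega
          · intro y hy
            simp only at hy
            by_cases h3 : (wt (n', t.head?.getD false :: x)).isSome = true
            · rw [if_pos h3] at hy
              exact absurd hy (by simp)
            · rw [if_neg h3] at hy
              have : t.head?.getD false :: x = y := by simpa using hy
              rw [← this, List.length_cons]
              omega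
          · simp only
            rw [List.length_tail]
            omega
  have fiter : FPNP fun p : ℕ × (List Bool × List Bool) =>
      (pst wt)^[p.2.2.length] (p.1, p.2.1, none, p.2.2) := by
    refine K.iter (step := pst wt) (s := fun p : ℕ × (List Bool × List Bool) =>
      (p.1, p.2.1, none, p.2.2)) (n := fun p => p.2.2.length)
      (h := fun p => 10 + 2 * p.1 + 4 * p.2.1.length + 4 * Kn p.1 +
        (2 + 1 + 4 * (p.2.1.length + Kn p.1 + 1)) + 4 * p.2.2.length) fstep
      (FPNP.of_ptime (by fun_prop)) (by fun_prop) ?_ ?_
    · have e0 : PTime fun p : ℕ × (List Bool × List Bool) => Kn p.1 :=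
        pK.comp (f := fun p : ℕ × (List Bool × List Bool) => p.1) (by fun_prop)
      have e : PTime fun p : ℕ × (List Bool × List Bool) =>
          10 + 2 * p.1 + 4 * p.2.1.length + 4 * Kn p.1 +
        (2 + 1 + 4 * (p.2.1.length + Kn p.1 + 1)) + 4 * p.2.2.length := by fun_prop
      obtain ⟨B, hB⟩ := e.exists_size_le
      refine ⟨B, fun p => ?_⟩
      have := hB p
      simp only [sz_nat] at this
      change 10 + 2 * p.1 + 4 * p.2.1.length + 4 * Kn p.1 +
        (2 + 1 + 4 * (p.2.1.length + Kn p.1 + 1)) + 4 * p.2.2.length ≤ B.eval (sz p)
      omega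
    · intro p i _
      obtain ⟨e1, e2, e3, e4⟩ := hsize p.1 p.2.1 p.2.2 i
      generalize (pst wt)^[i] (p.1, p.2.1, none, p.2.2) = s at e1 e2 e3 e4
      obtain ⟨n', x, o, t⟩ := s
      simp only at e1 e2 e3 e4
      have h1 := sz_bits x
      have h2 := sz_bits t
      have h3 : sz o ≤ 2 + (1 + 4 * (p.2.1.length + Kn p.1 + 1)) := by
        cases o with
        | none => simp only [sz_none]; omega
        | some y =>
          have h4 := sz_bits y
          have h5 := e3 y rfl
          rw [sz_some]
          omega
      simp only [sz_pair, sz_nat]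
      omega
  refine ⟨fun p => ((pst wt)^[p.2.2.length] (p.1, p.2.1, none, p.2.2)).2.2.1.getD [], ?_, ?_⟩
  · exact K.pcomp (g := fun s : ℕ × List Bool × Option (List Bool) × List Bool => s.2.2.1.getD [])
      (by fun_prop) fiter
  · intro n l r hl hr hno
    simp only
    -- invariant
    have hinv : ∀ i ≤ r.length,
        (∃ y : List Bool, ((pst wt)^[i] (n, l, none, r)).2.2.1 = some y ∧ y.length = Kn n + 1 ∧
          ∀ x : List Bool, x.length = Kn n → C (n, x) ≠ y) ∨
        (∃ x : List Bool, (pst wt)^[i] (n, l, none, r) = (n, x, none, r.drop i) ∧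
          x.length = Kn n ∧ (stepC C)^[i] (n, x, r.drop i) = (n, l, r)) := by
      intro i
      induction i with
      | zero => intro _; exact Or.inr ⟨l, rfl, hl, rfl⟩
      | succ i ih =>
        intro hi
        rw [Function.iterate_succ_apply']
        rcases ih (by omega) with ⟨y, h1, h2, h3⟩ | ⟨x, h1, h2, h3⟩
        · left
          refine ⟨y, ?_, h2, h3⟩
          generalize (pst wt)^[i] (n, l, none, r) = s at h1
          unfold pst
          rw [if_pos (by rw [h1]; rfl)]
          exact h1
        · rw [h1]
          have hd : r.drop i = r[i] :: r.drop (i + 1) := List.drop_eq_getElem_cons (by omega)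
          have hp : ∀ (b : Bool) (t : List Bool), pst wt (n, x, none, b :: t) =
              (n, (wt (n, b :: x)).getD x,
                (if (wt (n, b :: x)).isSome = true then none else some (b :: x)), t) := by
            intro b t
            unfold pst
            simp
          rw [hd, hp]
          cases hw : wt (n, r[i] :: x) with
          | none =>
            left
            refine ⟨r[i] :: x, by simp, by simp [h2], fun x' hx' hC => ?_⟩
            refine hwt2 _ hw x' ?_ ⟨hx', hC⟩
            have := sz_bits x'
            rw [hx'] at this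
            exact this
          | some x' =>
            right
            obtain ⟨-, h4, h5⟩ := hwt1 _ _ hw
            simp only at h4 h5
            refine ⟨x', by simp, h4, ?_⟩
            rw [Function.iterate_succ_apply]
            have : stepC C (n, x', r.drop (i + 1)) = (n, x, r.drop i) := by
              unfold stepC
              simp only [h5, List.tail_cons, List.headD_cons]
              rw [← hd]
            rw [this, h3]
    rcases hinv r.length le_rfl with ⟨y, h1, h2, h3⟩ | ⟨x, h1, h2, h3⟩
    · rw [h1]
      exact ⟨h2, h3⟩
    · exfalso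
      refine hno x h2 ?_
      unfold dbl
      rw [if_pos h2]
      rw [List.drop_length, hr] at h3
      simp only
      rw [h3]

end Pool.TQ
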