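import Pool.Agent.H74.TQ.NPp

/-!
# Two queries: basic notions

Machine level classes, all on top of the library `Pool/Agent/TM` (`PTime`, `Enc`, `sz`, `Sat`):

* `NPp R`   : the predicate `R` is in NP (file `NPp.lean`);
* `trans`   : the answers of the SAT oracle to a sequence of adaptive queries;
* `FPNP f`  : the function `f` is computed in polynomial time with a SAT oracle.
-/

set_option autoImplicit false

namespace Pool.TQ

open TMLib Polynomial

/-- 3-CNF formulas (see `Pool/Agent/TM/Sat.lean`) -/
abbrev Form := List Cl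

open Classical in
/-- satisfiability as a boolean -/
noncomputable def satb (φ : Form) : Bool := decide (Sat φ)

lemma satb_iff (φ : Form) : satb φ = true ↔ Sat φ := by simp [satb]
lemma satb_false_iff (φ : Form) : satb φ = false ↔ ¬ Sat φ := by simp [satb]

/-- The first `N` oracle answers: query number `i+1` is `Q (x, answers to the first i queries)`. -/
noncomputable def trans {α : Type} (Q : α × List Bool → Form) (x : α) : ℕ → List Bool
  | 0 => []
  | n + 1 => trans Q x n ++ [satb (Q (x, trans Q x n))]

/-- Functions computable in polynomial time with adaptive queries to `Sat`: for every large enough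
number `N` of queries the output can be computed from the input and the answers. -/
def FPNP {α β : Type} [Enc α] [Enc β] (f : α → β) : Prop :=
  ∃ (Q : α × List Bool → Form) (O : α × List Bool → β) (P : ℕ[X]), PTime Q ∧ PTime O ∧
    ∀ x N, P.eval (sz x) ≤ N → O (x, trans Q x N) = f x

/-- one query normal form: languages decided with one query to `Sat` -/
def OneQ {α : Type} [Enc α] (L : α → Prop) : Prop :=
  ∃ (q : α → Form) (t : α × Bool → Bool), PTime q ∧ PTime t ∧
    ∀ x, L x ↔ t (x, satb (q x)) = true

/-! ### The base structure given by the two queries assumption -/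

/-- `b, G` reduce the question `F₁ ∈ SAT ∧ F₂ ∉ SAT` to one query; `PF, QF` are formulas used for
strong keys. -/
structure Ctx where
  b : Form × Form → Bool
  G : Form × Form → Form
  PF : Form × Form × Form → Form
  QF : Form × Form × Form → Form
  pb : PTime b
  pG : PTime G
  pPF : PTime PF
  pQF : PTime QF
  /-- `b = false`: the query answers the question -/
  specF : ∀ F₁ F₂, b (F₁, F₂) = false → ((Sat F₁ ∧ ¬ Sat F₂) ↔ Sat (G (F₁, F₂)))
  /-- `b = true`: the query answers the negated question -/
  specT : ∀ F₁ F₂, b (F₁, F₂) = true → ((Sat F₁ ∧ ¬ Sat F₂) ↔ ¬ Sat (G (F₁, F₂)))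
  specP : ∀ ψ F F', Sat (PF (ψ, F, F')) ↔
    (Sat ψ ∨ (b (ψ, F) = true ∧ Sat (G (ψ, F)) ∧ Sat F'))
  specQ : ∀ ψ F F', Sat (QF (ψ, F, F')) ↔ (Sat ψ ∧ Sat F')

namespace Ctx

variable (c : Ctx)

/-- `E`-certificates of unsatisfiability of `F` at scale `m` -/
def E (m : ℕ) (F : Form) : Prop :=
  ∃ φ : Form, sz φ ≤ m ∧ Sat φ ∧ c.b (φ, F) = false ∧ Sat (c.G (φ, F))

/-- `F` is hard at scale `m` -/
def Hard (m : ℕ) (F : Form) : Prop := ¬ Sat F ∧ ¬ c.E m F

/-- certificate of unsatisfiability of `φ` relative to the key `F` -/
def PS (F φ : Form) : Prop := c.b (φ, F) = false ∨ Sat (c.G (φ, F))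

end Ctx

/-! ### Self-reduction of satisfiability -/

/-- `φ` with the first variables fixed by `π` -/
def rho (k : Form × List Bool) : Form :=
  k.1 ++ (List.range k.2.length).map fun i =>
    ((i, k.2.getD i false), (i, k.2.getD i false), (i, k.2.getD i false))

/-- the assignment given by a bit list satisfies the formula -/
def chk (p : Form × List Bool) : Bool :=
  p.1.all fun cl => (p.2.getD cl.1.1 false == cl.1.2) || (p.2.getD cl.2.1.1 false == cl.2.1.2) ||
    (p.2.getD cl.2.2.1 false == cl.2.2.2)

namespace Ctx

variable (c : Ctx)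

/-- certified and unsatisfiable: node of the self-reduction tree whose children are certified -/
def Valid (m : ℕ) (k : Form × List Bool) : Prop :=
  (k.2.length < sz k.1 ∧ c.E m (rho (k.1, k.2 ++ [false])) ∧ c.E m (rho (k.1, k.2 ++ [true]))) ∨
    (sz k.1 ≤ k.2.length ∧ chk k = false)

/-- the polynomial time algorithm given by a pair `k = (φ, π)` -/
def alg (p : (Form × List Bool) × Form) : Bool :=
  c.b (p.2, rho p.1) && c.b (c.PF (p.2, rho p.1, p.1.1), c.QF (p.2, rho p.1, p.1.1))

/-- `k` is a strong key at scale `m` -/
def Strong (m : ℕ) (k : Form × List Bool) : Prop :=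
  ∀ ψ : Form, sz ψ ≤ m → (Sat ψ ↔ c.alg (k, ψ) = true)

/-- extended certificates of unsatisfiability of `φ` -/
def UCert (m : ℕ) (φ : Form) : Prop :=
  c.E m φ ∨ ∃ (π : List Bool) (ψ : Form), π.length ≤ sz φ ∧ sz ψ ≤ m ∧ c.Valid m (φ, π) ∧
    c.b (ψ, rho (φ, π)) = true ∧
    ((Sat ψ ∧ c.b (c.PF (ψ, rho (φ, π), φ), c.QF (ψ, rho (φ, π), φ)) = false ∧
        Sat (c.G (c.PF (ψ, rho (φ, π), φ), c.QF (ψ, rho (φ, π), φ)))) ∨
      (Sat (c.G (ψ, rho (φ, π))) ∧
        c.b (c.PF (ψ, rho (φ, π), φ), c.QF (ψ, rho (φ, π), φ)) = true ∧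
        Sat (c.G (c.PF (ψ, rho (φ, π), φ), c.QF (ψ, rho (φ, π), φ)))))

/-- search by self-reduction, with the decision procedure given by the key `k` -/
def srch (k : Form × List Bool) (φ : Form) : List Bool :=
  (fun w => w ++ [c.alg (k, rho (φ, w ++ [true]))])^[sz φ] []

/-- keys as bit strings -/
def kdec (l : List Bool) : Form × List Bool := TMLib.Fix.fix (parse l)

/-- does the key (a bit string) solve the formula? -/
def solve (p : List Bool × Form) : Bool := chk (p.2, c.srch (kdec p.1) p.2)

end Ctx

/-! ### Bit strings -/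

/-- lexicographic order of bit strings of equal length -/
def ltb : List Bool → List Bool → Bool
  | a :: l, a' :: l' => (!a && a') || (a == a' && ltb l l')
  | _, _ => false

/-- bitwise sum of bit strings -/
def xorl (l l' : List Bool) : List Bool := (l.zip l').map fun p => xor p.1 p.2

/-- the bit strings of length `N` -/
def bits (N : ℕ) : Finset (List Bool) :=
  (Finset.univ : Finset (Fin N → Bool)).map
    ⟨List.ofFn, fun _ _ h => List.ofFn_injective h⟩

lemma mem_bits (N : ℕ) (l : List Bool) : l ∈ bits N ↔ l.length = N := by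
  simp only [bits, Finset.mem_map, Finset.mem_univ, Function.Embedding.coeFn_mk, true_and]
  constructor
  · rintro ⟨f, rfl⟩; simp
  · rintro rfl; exact ⟨fun i => l[i], by simp⟩

lemma card_bits (N : ℕ) : (bits N).card = 2 ^ N := by simp [bits]

open Classical in
/-- auxiliary for `lexmin` -/
noncomputable def lexminA (R : List Bool → Prop) : ℕ → List Bool → List Bool
  | 0, p => p
  | N + 1, p => if ∃ w : List Bool, w.length = N ∧ R (p ++ false :: w) then
      lexminA R N (p ++ [false]) else lexminA R N (p ++ [true])

/-- the lexicographically first string of length `N` with `R` (the last string if there is none) -/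
noncomputable def lexmin (R : List Bool → Prop) (N : ℕ) : List Bool := lexminA R N []

/-! ### Range avoidance and trees -/

/-- a family of polynomial time functions `{0,1}^(K n) → {0,1}^(K n + 1)` -/
structure Stretch (C : ℕ × List Bool → List Bool) (K : ℕ → ℕ) : Prop where
  pC : PTime C
  pK : PTime K
  pos : ∀ n, 1 ≤ K n
  len : ∀ n x, x.length = K n → (C (n, x)).length = K n + 1

/-- one step of the iteration of `C` -/
def stepC (C : ℕ × List Bool → List Bool) (s : ℕ × List Bool × List Bool) :
    ℕ × List Bool × List Bool :=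
  (s.1, (C (s.1, s.2.1)).tail, (C (s.1, s.2.1)).headD false :: s.2.2)

/-- the doubling function `{0,1}^K → {0,1}^K × {0,1}^K` obtained by iterating `C` -/
def dbl (C : ℕ × List Bool → List Bool) (K : ℕ → ℕ) (p : ℕ × List Bool) :
    List Bool × List Bool :=
  if p.2.length = K p.1 then ((stepC C)^[K p.1] (p.1, p.2, [])).2 else ([], [])

/-- a family of polynomial time functions `{0,1}^(K n) → {0,1}^(K n) × {0,1}^(K n)` -/
structure Double (f : ℕ × List Bool → List Bool × List Bool) (K : ℕ → ℕ) : Prop where
  pf : PTime f
  pK : PTime K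
  pos : ∀ n, 1 ≤ K n
  len₁ : ∀ n x, x.length = K n → (f (n, x)).1.length = K n
  len₂ : ∀ n x, x.length = K n → (f (n, x)).2.length = K n

/-- the leaf at the end of the path `p` in the tree with code `e` -/
def dec (f : List Bool → List Bool × List Bool) (e p : List Bool) : List Bool :=
  p.foldl (fun e b => bif b then (f e).2 else (f e).1) e

/-- the value which the leaf `j` should have (diagonalisation) -/
def target (f : List Bool → List Bool × List Bool) (j : List Bool) : List Bool :=
  (dec f j j).map not

/-- the tree with code `e` is wrong at some leaf before `i` (`i` has `k+1` bits) -/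
def WrongBefore (f : List Bool → List Bool × List Bool) (k : ℕ) (i e : List Bool) : Prop :=
  ∃ j : List Bool, j.length = k ∧ ltb (false :: j) i = true ∧ dec f e j ≠ target f j

/-! ### Hashing -/

/-- number of bits of a hash function on `{0,1}^a` -/
def hbits (a : ℕ) : ℕ := (a + 2) * (a + 1)

/-- inner product modulo 2 -/
def ip (u v : List Bool) : Bool := (u.zip v).foldl (fun s p => xor s (p.1 && p.2)) false

/-- hash value (`a+2` bits) of `κ ∈ {0,1}^a` under the hash function `h ∈ {0,1}^(hbits a)` -/
def hval (a : ℕ) (h κ : List Bool) : List Bool :=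
  (List.range (a + 2)).map fun j => ip ((h.drop (j * (a + 1))).take (a + 1)) (κ ++ [true])

/-- `κ ∈ {0,1}^a` solves all formulas of the list -/
def Alive (S : List Bool × Form → Bool) (a : ℕ) (Φ : List Form) (κ : List Bool) : Prop :=
  κ.length = a ∧ ∀ φ ∈ Φ, S (κ, φ) = true

/-- the sample: the living key with the smallest hash value -/
noncomputable def samp (S : List Bool × Form → Bool) (a : ℕ) (Φ : List Form) (h : List Bool) :
    List Bool :=
  (lexmin (fun w => w.take (a + 2) = hval a h (w.drop (a + 2)) ∧
    ∀ φ ∈ Φ, S (w.drop (a + 2), φ) = true) (a + 2 + a)).drop (a + 2)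

/-- cut a bit string into `s` consecutive pieces of length `l` -/
def cut (s l : ℕ) (x : List Bool) : List (List Bool) :=
  (List.range s).map fun j => (x.drop (j * l)).take l

/-- no sample of the block `x` (made of `g` hash functions) solves `φ` -/
def BadBlock (S : List Bool × Form → Bool) (a g : ℕ) (Φ : List Form) (φ : Form)
    (x : List Bool) : Prop := ∀ h ∈ cut g (hbits a) x, S (samp S a Φ h, φ) = false

/-- parameters of the learning procedure as functions of `n` -/
structure Par where
  a : ℕ → ℕ
  g : ℕ → ℕ
  s : ℕ → ℕ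
  p0 : ℕ → ℕ
  pa : PTime a
  pg : PTime g
  ps : PTime s
  pp0 : PTime p0
  gpos : ∀ n, 1 ≤ g n
  /-- room for the information `(Φ, φ)` -/
  hp0 : ∀ n, 1 + (1 + (a n + 1) * (1 + n)) + n ≤ p0 n
  hs : ∀ n, s n = p0 n + g n * hbits (a n) + a n + 1
  hsg : ∀ n, s n * 15 ^ g n < 16 ^ g n

namespace Par

variable (P : Par)

/-- block length -/
def ell (n : ℕ) : ℕ := P.g n * hbits (P.a n)

/-- input length of the compression function -/
def K (n : ℕ) : ℕ := P.p0 n + P.ell n + P.s n * P.ell n

end Par

open Classical in
/-- the decompression function (computable with the oracle) -/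
noncomputable def cstar (S : List Bool × Form → Bool) (P : Par) (p : ℕ × List Bool) : List Bool :=
  let I : List Form × Form := TMLib.Fix.fix (parse (p.2.take (P.p0 p.1)))
  let y := (p.2.drop (P.p0 p.1)).take (P.ell p.1)
  (cut (P.s p.1) (P.ell p.1) (p.2.drop (P.p0 p.1 + P.ell p.1))).flatMap fun x =>
    if BadBlock S (P.a p.1) (P.g p.1) I.1 I.2 x then false :: x else true :: xorl x y

/-- all samples given by `H` (blocks of length `ell + 1`; the first bit of a block is not used) -/
noncomputable def samples (S : List Bool × Form → Bool) (P : Par) (n : ℕ) (H : List Bool)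
    (Φ : List Form) : List (List Bool) :=
  (cut (P.s n) (P.ell n + 1) H).flatMap fun x =>
    (cut (P.g n) (hbits (P.a n)) x.tail).map fun h => samp S (P.a n) Φ h

/-- `cex` finds satisfiable formulas of size at most `n` which are not solved by a list of keys -/
def IsCex (S : List Bool × Form → Bool) (cex : ℕ × List (List Bool) → Option Form) : Prop :=
  (∀ n Ks φ, cex (n, Ks) = some φ → sz φ ≤ n ∧ Sat φ ∧ ∀ κ ∈ Ks, S (κ, φ) = false) ∧
  (∀ n Ks, cex (n, Ks) = none → ∀ φ, sz φ ≤ n → Sat φ → ∃ κ ∈ Ks, S (κ, φ) = true)

/-- one round of the learning procedure -/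
noncomputable def lstep (S : List Bool × Form → Bool) (P : Par)
    (cex : ℕ × List (List Bool) → Option Form) (n : ℕ) (H : List Bool) (Φ : List Form) :
    List Form :=
  Φ ++ (cex (n, samples S P n H Φ)).toList

/-- the result of the learning procedure -/
noncomputable def learn (S : List Bool × Form → Bool) (P : Par)
    (cex : ℕ × List (List Bool) → Option Form) (p : ℕ × List Bool) : List (List Bool) :=
  samples S P p.1 p.2 ((lstep S P cex p.1 p.2)^[P.a p.1 + 1] [])

end Pool.TQ
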