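import Pool.Agent.H74.TQ.Stmts

set_option autoImplicit false

namespace Pool.TQ

open TMLib Polynomial

theorem exfp74 : S_EXFP := by
  classical
  intro K hadv α β _ _ _ _ R q hR hq
  obtain ⟨Adv, U, hAdv, hU, hspec⟩ := hadv
  obtain ⟨Q, O, P, hQ, hO, h⟩ := hR
  obtain ⟨B, hB⟩ := hQ.exists_size_le
  let N : α → ℕ := fun x => P.eval (1 + sz x + q x)
  let m : α → ℕ := fun x => B.eval (1 + (1 + sz x + q x) + (1 + 4 * N x))
  have pN : PTime N := by
    have : PTime fun x : α => 1 + sz x + q x := by fun_prop
    exact PTime.polyEval P this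
  have pm : PTime m := by
    have : PTime fun x : α => 1 + (1 + sz x + q x) + (1 + 4 * N x) := by fun_prop
    exact PTime.polyEval B this
  -- the certified runs
  let C : (α × D) → (β × List Bool) → Prop := fun p bw =>
    sz bw.1 ≤ q p.1 ∧ bw.2.length = N p.1 ∧ O ((p.1, bw.1), bw.2) = true ∧
    ∀ j ∈ List.range (N p.1),
      (bw.2.getD j false = true ∧ Sat (Q ((p.1, bw.1), bw.2.take j))) ∨
      (bw.2.getD j false = false ∧ U (Q ((p.1, bw.1), bw.2.take j)) p.2)
  have hC : NPp (fun r : (α × D) × (β × List Bool) => C r.1 r.2) := by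
    have pN1 : PTime fun r : (α × D) × (β × List Bool) => N r.1.1 :=
      pN.comp (f := fun r : (α × D) × (β × List Bool) => r.1.1) (by fun_prop)
    have pq1 : PTime fun r : (α × D) × (β × List Bool) => q r.1.1 :=
      hq.comp (f := fun r : (α × D) × (β × List Bool) => r.1.1) (by fun_prop)
    refine NPp.and (NPp.of_ptime ?_) (NPp.and (NPp.of_ptime ?_) (NPp.and (NPp.of_ptime ?_) ?_))
    · exact PTime.le (by fun_prop) pq1
    · exact PTime.eq (by fun_prop) pN1
    · refine PTime.decide_true' ?_
      exact hO.comp (f := fun r : (α × D) × (β × List Bool) => ((r.1.1, r.2.1), r.2.2))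
        (by fun_prop)
    · refine NPp.forall_mem (R := fun (r : (α × D) × (β × List Bool)) (j : ℕ) =>
        (r.2.2.getD j false = true ∧ Sat (Q ((r.1.1, r.2.1), r.2.2.take j))) ∨
        (r.2.2.getD j false = false ∧ U (Q ((r.1.1, r.2.1), r.2.2.take j)) r.1.2)) ?_
        (PTime.range pN1)
      have pQ1 : PTime fun t : ((α × D) × (β × List Bool)) × ℕ =>
          Q ((t.1.1.1, t.1.2.1), t.1.2.2.take t.2) :=
        hQ.comp (f := fun t : ((α × D) × (β × List Bool)) × ℕ =>
          ((t.1.1.1, t.1.2.1), t.1.2.2.take t.2)) (by fun_prop)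
      refine NPp.or (NPp.and (NPp.of_ptime ?_) (npp_sat' pQ1))
        (NPp.and (NPp.of_ptime ?_) ?_)
      · fun_prop
      · exact PTime.eq (by fun_prop) (PTime.const false)
      · exact hU.comp (g := fun t : ((α × D) × (β × List Bool)) × ℕ =>
          (Q ((t.1.1.1, t.1.2.1), t.1.2.2.take t.2), t.1.1.2)) (PTime.pair pQ1 (by fun_prop))
  have pq' : PTime fun p : α × D => 1 + q p.1 + (1 + 4 * N p.1) := by
    have e1 : PTime fun p : α × D => q p.1 := hq.comp (f := fun p : α × D => p.1) (by fun_prop)
    have e2 : PTime fun p : α × D => N p.1 := pN.comp (f := fun p : α × D => p.1) (by fun_prop)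
    fun_prop
  have hW := NPp.exists_le (R := C) hC pq'
  have fW := K.npp hW
  refine ⟨fun x => decide (∃ bw : β × List Bool, sz bw ≤ 1 + q x + (1 + 4 * N x) ∧
    C (x, Adv (m x)) bw), ?_, fun x => ?_⟩
  · exact K.comp (f := fun x => (x, Adv (m x))) fW
      (K.pair (FPNP.of_ptime PTime.id) (K.compp (f := m) hAdv pm))
  · rw [decide_eq_true_eq]
    have hsz : ∀ b : β, sz b ≤ q x → ∀ w : List Bool, w.length ≤ N x →
        sz (Q ((x, b), w)) ≤ m x := by
      intro b hb w hw
      refine (hB ((x, b), w)).trans (eval_mono B ?_)
      have h1 := sz_list_le w w.length 3 le_rfl fun b _ => sz_bool_le b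
      simp only [sz_pair]
      omega
    have hstab : ∀ b : β, sz b ≤ q x → O ((x, b), trans Q (x, b) (N x)) = R (x, b) := by
      intro b hb
      refine h (x, b) (N x) (eval_mono P ?_)
      rw [sz_pair]
      simp only
      omega
    constructor
    · rintro ⟨⟨b, w⟩, -, h1, h2, h3, h4⟩
      simp only at h1 h2 h3 h4
      refine ⟨b, h1, ?_⟩
      rw [← hstab b h1, ← h3]
      -- w is the true transcript
      have h5 : ∀ j ≤ N x, w.take j = trans Q (x, b) j := by
        intro j
        induction j with
        | zero => intro _; simp [trans]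
        | succ j ih =>
          intro hj
          have h6 := ih (by omega)
          have hjw : j < w.length := by omega
          have hg : w.getD j false = w[j] := by
            simp [List.getD_eq_getElem?_getD, hjw]
          have h7 : w.take (j + 1) = w.take j ++ [w[j]] := by
            rw [List.take_succ_eq_append_getElem hjw]
          rw [h7, h6]
          simp only [trans]
          congr 2
          have h8 := h4 j (List.mem_range.2 (by omega))
          rw [hg, h6] at h8
          have h9 := hspec (m x) (Q ((x, b), trans Q (x, b) j)) (hsz b h1 _ (by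
            rw [trans_length]; omega))
          rcases h8 with ⟨e1, e2⟩ | ⟨e1, e2⟩
          · rw [e1]; exact ((satb_iff _).2 e2).symm
          · rw [e1]; exact ((satb_false_iff _).2 (h9.2 e2)).symm
      have h6 := h5 (N x) le_rfl
      rw [← h2, List.take_length] at h6
      rw [← h2, ← h6]
    · rintro ⟨b, hb, hRb⟩
      refine ⟨(b, trans Q (x, b) (N x)), ?_, hb, trans_length _ _ _, ?_, ?_⟩
      · have h1 := sz_list_le (trans Q (x, b) (N x)) (N x) 3 (by rw [trans_length])
          fun b _ => sz_bool_le b
        rw [sz_pair]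
        simp only
        omega
      · rw [← hRb, ← hstab b hb]
      · intro j hj
        have hj' : j < N x := List.mem_range.1 hj
        simp only
        rw [trans_take Q (x, b) hj'.le]
        have h1 : (trans Q (x, b) (N x)).getD j false = satb (Q ((x, b), trans Q (x, b) j)) := by
          have h2 := trans_take Q (x, b) (show j + 1 ≤ N x by omega)
          have h3 : (trans Q (x, b) (N x)).getD j false =
              ((trans Q (x, b) (N x)).take (j + 1)).getD j false := by
            simp [List.getD_eq_getElem?_getD]
          rw [h3, h2]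
          simp only [trans]
          rw [List.getD_eq_getElem?_getD, List.getElem?_append_right (by rw [trans_length]),
            trans_length]
          simp
        rw [h1]
        have h9 := hspec (m x) (Q ((x, b), trans Q (x, b) j)) (hsz b hb _ (by
            rw [trans_length]; omega))
        by_cases hs : Sat (Q ((x, b), trans Q (x, b) j))
        · exact Or.inl ⟨(satb_iff _).2 hs, hs⟩
        · exact Or.inr ⟨(satb_false_iff _).2 hs, h9.1 hs⟩

end Pool.TQ
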