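import Pool.Agent.H74.TQ.Stmts

set_option autoImplicit false

namespace Pool.TQ

open TMLib Polynomial

namespace FOLDSb

variable {α β γ σ : Type} [Enc α] [Enc β] [Enc γ] [Enc σ]

lemma optF {g : α → β → γ} (hg : FPNP (fun p : α × β => g p.1 p.2)) {d : α → γ} (hd : PTime d) :
    FPNP (fun p : α × Option β =>
      Option.casesOn (motive := fun _ => γ) p.2 (d p.1) (fun b => g p.1 b)) := by
  obtain ⟨Q, O, P, hQ, hO, h⟩ := hg
  refine ⟨fun q => Option.casesOn (motive := fun _ => Form) q.1.2 []
      (fun b => Q ((q.1.1, b), q.2)),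
    fun q => Option.casesOn (motive := fun _ => γ) q.1.2 (d q.1.1)
      (fun b => O ((q.1.1, b), q.2)), P, ?_, ?_, ?_⟩
  · refine PTime.optCases (o := fun q : (α × Option β) × List Bool => q.1.2)
      (f := fun _ => ([] : Form)) (g := fun q b => Q ((q.1.1, b), q.2)) (by fun_prop)
      (by fun_prop) ?_
    exact hQ.comp (f := fun r : ((α × Option β) × List Bool) × β => ((r.1.1.1, r.2), r.1.2))
      (by fun_prop)
  · refine PTime.optCases (o := fun q : (α × Option β) × List Bool => q.1.2)
      (f := fun q => d q.1.1) (g := fun q b => O ((q.1.1, b), q.2)) (by fun_prop) ?_ ?_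
    · exact hd.comp (f := fun q : (α × Option β) × List Bool => q.1.1) (by fun_prop)
    · exact hO.comp (f := fun r : ((α × Option β) × List Bool) × β => ((r.1.1.1, r.2), r.1.2))
        (by fun_prop)
  · rintro ⟨x, o⟩ N hN
    cases o with
    | none => rfl
    | some b =>
      have h1 : ∀ M, trans (fun q : (α × Option β) × List Bool =>
          Option.casesOn (motive := fun _ => Form) q.1.2 [] (fun b => Q ((q.1.1, b), q.2)))
          (x, some b) M = trans Q (x, b) M := by
        intro M
        induction M with
        | zero => rfl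
        | succ M ih => simp only [trans, ih]
      simp only
      rw [h1]
      refine h (x, b) N (le_trans (eval_mono P ?_) hN)
      simp only [sz_pair, sz_some]
      omega

lemma foldl (K : Calc) {f : α → σ → β → σ} {init : α → σ} {l : α → List β}
    (hf : FPNP (fun p : α × σ × β => f p.1 p.2.1 p.2.2)) (hi : FPNP init) (hl : FPNP l)
    {h : α → ℕ} (hh : PB h)
    (hB : ∀ a l', l' <+: l a → sz (l'.foldl (f a) (init a)) ≤ h a) :
    FPNP (fun a => (l a).foldl (f a) (init a)) := by
  have hstep : FPNP (PTime.foldStep f) := by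
    have h1 : FPNP (fun p : (α × σ × List β) × β =>
        (fun (s : α × σ × List β) (b : β) => (s.1, f s.1 s.2.1 b, s.2.2.tail)) p.1 p.2) := by
      refine K.pair (FPNP.of_ptime (by fun_prop)) (K.pair ?_ (FPNP.of_ptime (by fun_prop)))
      exact K.compp (f := fun p : (α × σ × List β) × β => (p.1.1, p.1.2.1, p.2)) hf (by fun_prop)
    have h2 := optF (g := fun (s : α × σ × List β) (b : β) => (s.1, f s.1 s.2.1 b, s.2.2.tail))
      h1 (d := fun s : α × σ × List β => s) PTime.id
    refine (K.compp (f := fun s : α × σ × List β => (s, s.2.2.head?)) h2 (by fun_prop)).congr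
      fun s => ?_
    obtain ⟨a, s, t⟩ := s
    cases t <;> rfl
  obtain ⟨B, hB'⟩ := hl.size
  have hs : FPNP (fun a => (a, init a, l a)) :=
    K.pair (FPNP.of_ptime PTime.id) (K.pair hi hl)
  have hb : PB (fun a => 2 + sz a + h a + sz (l a)) :=
    (((PB.const 2).add PB.sz_self).add hh).add hl.pb
  have hn : PTime fun a : α => B.eval (sz a) := by fun_prop
  have hit := K.iter hstep hs hn hb (fun a i _ => by
    rw [PTime.foldStep_iterate]
    have h1 := hB a ((l a).take i) (List.take_prefix _ _)
    have h2 := PTime.sz_drop_le (l a) i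
    simp only [sz_pair]
    omega)
  refine (K.fst (K.snd hit)).congr fun a => ?_
  rw [PTime.foldStep_iterate]
  have h1 : (l a).length ≤ B.eval (sz a) := by
    have h2 := hB' a
    have h3 := length_lt_sz (l a)
    omega
  rw [List.take_of_length_le h1]

lemma flatMap (K : Calc) {l : α → List β} {g : α → β → List γ} (hl : FPNP l)
    (hg : FPNP (fun p : α × β => g p.1 p.2)) : FPNP (fun x => (l x).flatMap (g x)) := by
  have e : ∀ (a : α) (l : List β) (acc : List γ),
      l.foldl (fun acc b => acc ++ g a b) acc = acc ++ l.flatMap (g a) := by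
    intro a l
    induction l with
    | nil => simp
    | cons b l ih => intro acc; simp [ih]
  obtain ⟨B, hB⟩ := hg.size
  have hstep : FPNP (fun p : α × List γ × β =>
      (fun (a : α) (acc : List γ) (b : β) => acc ++ g a b) p.1 p.2.1 p.2.2) := by
    refine K.pcomp (g := fun q : List γ × List γ => q.1 ++ q.2) (by fun_prop)
      (K.pair (FPNP.of_ptime (by fun_prop)) ?_)
    exact K.compp (f := fun p : α × List γ × β => (p.1, p.2.2)) hg (by fun_prop)
  have := foldl K (f := fun a acc b => acc ++ g a b) (init := fun _ : α => ([] : List γ)) (l := l)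
    hstep (FPNP.const []) hl
    (h := fun a => 1 + sz (l a) * B.eval (1 + sz a + sz (l a)))
    ((PB.const 1).add (hl.pb.mul ((((PB.const 1).add PB.sz_self).add hl.pb).poly B)))
    (fun a l' hl' => by
      rw [e, List.nil_append]
      refine (PTime.sz_flatMap_le l' (g a) (B.eval (1 + sz a + sz (l a))) fun b hb => ?_).trans ?_
      · refine (hB (a, b)).trans (eval_mono B ?_)
        have := sz_le_of_mem (hl'.subset hb)
        simp only [sz_pair]
        omega
      · have h1 : l'.length ≤ sz (l a) := by
          have := length_lt_sz (l a)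
          have := hl'.length_le
          omega
        have := Nat.mul_le_mul_right (B.eval (1 + sz a + sz (l a))) h1
        omega)
  exact this.congr fun a => by rw [e, List.nil_append]

lemma map (K : Calc) {l : α → List β} {g : α → β → γ} (hl : FPNP l)
    (hg : FPNP (fun p : α × β => g p.1 p.2)) : FPNP (fun x => (l x).map (g x)) := by
  refine (flatMap K (g := fun x b => [g x b]) hl ?_).congr fun x => ?_
  · exact K.pcomp (g := fun c : γ => [c]) (by fun_prop) hg
  · induction l x with
    | nil => rfl
    | cons b l ih => simp [ih]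

end FOLDSb

theorem folds74 : S_FOLDS := by
  intro K
  refine ⟨?_, ?_, ?_, ?_⟩
  · intro α β σ _ _ _ f init l hf hi hl h hh hB
    exact FOLDSb.foldl K hf hi hl hh hB
  · intro α β γ _ _ _ l g hl hg
    exact FOLDSb.map K hl hg
  · intro α β γ _ _ _ l g hl hg
    exact FOLDSb.flatMap K hl hg
  · intro α β _ _ l g hl hg
    refine (K.pcomp (g := fun l : List Bool => l.all fun b => b) ?_
      (FOLDSb.map K (g := g) hl hg)).congr fun x => ?_
    · exact PTime.all (g := fun (_ : List Bool) (b : Bool) => b) PTime.id (by fun_prop)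
    · rw [List.all_map]; rfl

end Pool.TQ
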