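import Pool.Agent.H74.TQ.StmtsF

/-!
# Two queries: the theorem from the modules
-/

set_option autoImplicit false

namespace Pool.TQ

open TMLib Polynomial N68a2faeb N487b59b3 Pool.TwoQueries

theorem main_of (hCODE : S_CODE) (hTOSAT : S_TOSAT) (hBIND : S_BIND) (hITER : S_ITER)
    (hSIM : S_SIM) (hFOLDS : S_FOLDS) (hSEARCH : S_SEARCH) (hLEXF : S_LEXF) (hLEXM : S_LEXM)
    (hLTB : S_LTB) (hCTX : S_CTX) (hKEY : S_KEY) (hRHO : S_RHO) (hSTRONG : S_STRONG)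
    (hSOLVE : S_SOLVE) (hDBL : S_DBL) (hUPD : S_UPD) (hWB : S_WB) (hWBP : S_WBP)
    (hBSEARCH : S_BSEARCH) (hAVOID : S_AVOID) (hSTAR : S_STAR) (hPAIR : S_PAIR) (hISO : S_ISO)
    (hSAMP : S_SAMP) (hBLOCK : S_BLOCK) (hSHIFT : S_SHIFT) (hHALF : S_HALF) (hCOMPR : S_COMPR)
    (hLEARN : S_LEARN) (hCLEN : S_CLEN) (hSAMPF : S_SAMPF) (hCFP : S_CFP) (hLFP : S_LFP)
    (hCEX : S_CEX) (hPAR : S_PAR) (hADV : S_ADV) (hEXFP : S_EXFP) (hTWO : S_TWO)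
    (hCHAIN : S_CHAIN) (hCHNP : S_CHNP) (hADAPT : S_ADAPT) (hSATNP : S_SATNP)
    (hSATHARD : S_SATHARD) (hONE : S_ONE) (hPT : S_PT) (hDP : S_DP) (hPHFP : S_PHFP)
    (hLOW : S_LOW) : PSAT1 = PSAT2 → PH = PSAT1 := by
  intro h2
  have K : Calc := ⟨hBIND, hITER, hTOSAT⟩
  have F : Folds := hFOLDS K
  obtain ⟨c⟩ := hCTX K (hDP hPT hCODE hSATNP hSATHARD h2)
  have kp := hKEY c
  have sp := hSTRONG hRHO c kp
  obtain ⟨M, hM⟩ := hSOLVE hRHO c sp.ptimeAlg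
  have av : ∀ (C : ℕ × List Bool → List Bool) (K m : ℕ → ℕ), Stretch C K → PTime m →
      ∃ Av : ℕ → List Bool × Option Form, FPNP Av ∧ AvoidSpec c C K m Av :=
    hAVOID K hLTB hSEARCH hDBL hUPD hWB hWBP hBSEARCH F c kp
  have star := hSTAR K hSIM c sp.ptimeAlg av
  have hsf : FPNP (fun p : ℕ × List Form × List Bool => samp c.solve p.1 p.2.1 p.2.2) :=
    hSAMPF K hLEXF hM.ptime
  have half := hHALF hPAIR hISO hSAMP hBLOCK hLEXM hLTB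
  have hadv : HasAdv := by
    refine hADV K F c kp sp M hM star (fun P => ?_) hPAR
    obtain ⟨cex, h1, h3⟩ := hCEX K hSEARCH hM.ptime
    exact ⟨cex, h1, h3, hLFP K F P hM.ptime h1 h3 hsf, hCFP K F P hM.ptime hsf,
      hLEARN half hSHIFT hCOMPR c.solve P cex h3, hCLEN c.solve P⟩
  refine Set.Subset.antisymm (fun L hL => ?_) (hLOW hPT hSATNP)
  exact hONE hPT hSATHARD L (hADAPT K hTWO hCHAIN hCHNP c kp (hPHFP hPT K hEXFP hadv L hL))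

end Pool.TQ
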