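import Pool.Prelude.Def_F_458e953d

/-!
# SAT, bounded query classes, the polynomial hierarchy

Public definitions used in the statement of the result.  `DecisionProblem` (languages over the
alphabet `Bool`), `IsPolyTime` (computable in polynomial time by a Turing machine of Mathlib, with
the encodings of the prelude) and `P` are those of the prelude.
-/

set_option autoImplicit false

namespace Pool.TwoQueries

open N68a2faeb N487b59b3

/-! ### Boolean formulas and SAT -/

/-- Boolean formulas. -/
inductive BForm : Type
  | var (n : ℕ) : BForm
  | neg (F : BForm) : BForm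
  | and (F G : BForm) : BForm
  | or (F G : BForm) : BForm

/-- The value of a formula under an assignment. -/
def BForm.eval (v : ℕ → Bool) : BForm → Bool
  | .var n => v n
  | .neg F => !(F.eval v)
  | .and F G => F.eval v && G.eval v
  | .or F G => F.eval v || G.eval v

/-- A block `1^k 0`. -/
def block (k : ℕ) : List Bool := List.replicate k true ++ [false]

/-- Formulas as bit strings: reverse Polish notation; the symbols are the blocks `0` for negation,
`10` for conjunction, `110` for disjunction and `1^(n+3) 0` for the variable number `n`. -/
def BForm.encode : BForm → List Bool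
  | .var n => block (n + 3)
  | .neg F => F.encode ++ block 0
  | .and F G => F.encode ++ G.encode ++ block 1
  | .or F G => F.encode ++ G.encode ++ block 2

open Classical in
/-- `SAT`: the (codes of) satisfiable Boolean formulas. -/
noncomputable def SAT : DecisionProblem := fun x =>
  decide (∃ F : BForm, F.encode = x ∧ ∃ v : ℕ → Bool, F.eval v = true)

/-! ### Bounded query classes -/

/-- `P^{SAT[1]}`: a polynomial time machine computes a query `q x`; depending on the answer the
input is accepted or not in polynomial time. -/
def PSAT1 : DecisionComplexityClass :=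
  {L | ∃ (q : List Bool → List Bool) (A : Bool → DecisionProblem), IsPolyTime q ∧
    (∀ a, A a ∈ P) ∧ ∀ x, L x = A (SAT (q x)) x}

/-- `P_||^{SAT[2]}`: two non-adaptive queries. -/
def PSAT2 : DecisionComplexityClass :=
  {L | ∃ (q₁ q₂ : List Bool → List Bool) (A : Bool → Bool → DecisionProblem), IsPolyTime q₁ ∧
    IsPolyTime q₂ ∧ (∀ a b, A a b ∈ P) ∧ ∀ x, L x = A (SAT (q₁ x)) (SAT (q₂ x)) x}

/-! ### The polynomial hierarchy -/

/-- The classes `Σ_k^p`: `Σ_0^p = P`, and `L ∈ Σ_{k+1}^p` if there are a polynomial `p` and
`L' ∈ Σ_k^p` such that `x ∈ L` iff `(x, w) ∉ L'` for some `w` of length at most `p(|x|)`. -/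
def SigmaP : ℕ → DecisionComplexityClass
  | 0 => P
  | k + 1 => {L | ∃ (p : Polynomial ℕ) (L' : DecisionProblem), L' ∈ SigmaP k ∧
      ∀ x, L x = true ↔ ∃ w : List Bool, w.length ≤ p.eval x.length ∧
        L' (bitEncode (x, w)) = false}

/-- The polynomial hierarchy. -/
def PH : DecisionComplexityClass := {L | ∃ k, L ∈ SigmaP k}

end Pool.TwoQueries
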