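import Pool.Agent.H74.TQ.Stmts
import Pool.Agent.H74.TQ.Pub

/-!
# Two queries: statements of the final modules
-/

set_option autoImplicit false

namespace Pool.TQ

open TMLib Polynomial N68a2faeb N487b59b3 Pool.TwoQueries

/-- polynomial time decidable languages -/
def S_PT : Prop := ∀ L : DecisionProblem, L ∈ P ↔ PTime (fun x : List Bool => L x)

/-- `SAT` (general Boolean formulas as bit strings) is in NP: polynomial time verifier -/
def S_SATNP : Prop := ∃ V : List Bool → List Bool → Bool,
    (PTime fun p : List Bool × List Bool => V p.1 p.2) ∧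
    ∀ x, SAT x = true ↔ ∃ w : List Bool, w.length ≤ x.length ∧ V x w = true

/-- satisfiability of 3-CNF formulas reduces to `SAT` -/
def S_SATHARD : Prop := ∃ g : Form → List Bool, PTime g ∧ ∀ φ, Sat φ ↔ SAT (g φ) = true

/-- languages with one query normal form are in `P^{SAT[1]}` -/
def S_ONE : Prop := S_PT → S_SATHARD → ∀ L : DecisionProblem, OneQ (fun x => L x = true) → L ∈ PSAT1

/-- the difference question is in `P_||^{SAT[2]}`, so it has one query normal form under the two
queries assumption -/
def S_DP : Prop := S_PT → S_CODE → S_SATNP → S_SATHARD → PSAT1 = PSAT2 →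
    OneQ (fun p : Form × Form => Sat p.1 ∧ ¬ Sat p.2)

/-- the polynomial hierarchy is contained in `P^{SAT}` if there is an advice -/
def S_PHFP : Prop := S_PT → Calc → S_EXFP → HasAdv → ∀ L ∈ PH, FPNP (fun x : List Bool => L x)

/-- `P^{SAT[1]} ⊆ PH` -/
def S_LOW : Prop := S_PT → S_SATNP → PSAT1 ⊆ PH

end Pool.TQ
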