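import Pool.Agent.H74.TQ.Fin
import Pool.Agent.H74.TQ.BIND
import Pool.Agent.H74.TQ.AVOID
import Pool.Agent.H74.TQ.ADV
import Pool.Agent.H74.TQ.ADAPT
import Pool.Agent.H74.TQ.DBL
import Pool.Agent.H45.TQ.BLOCK
import Pool.Agent.H45.TQ.LEARN
import Pool.Agent.H45.TQ.KEY
import Pool.Agent.H45.TQ.WBP
import Pool.Agent.H45.TQ.CLEN
import Pool.Agent.H45.TQ.PT
import Pool.Agent.H45.TQ.ONE
import Pool.Agent.H45.TQ.LOW
import Pool.Agent.H27.TQ.BSEARCH
import Pool.Agent.H27.TQ.LEXM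
import Pool.Agent.H95.TQ.CEX
import Pool.Agent.H95.TQ.DP
import Pool.Agent.H95.TQ.PHFP
import Pool.Agent.H62.TQ.CFP
import Pool.Agent.H62.TQ.PAR
import Pool.Agent.H62.TQ.STAR
import Pool.Agent.H62.TQ.WB
import Pool.Agent.H22.TQ.CHAIN
import Pool.Agent.H22.TQ.SATNP
import Pool.Agent.H15.TQ.CHNP
import Pool.Agent.H15.TQ.STRONG
import Pool.Agent.H15.TQ.SATHARD
import Pool.Agent.H31.TQ.CODE
import Pool.Agent.H31.TQ.CTX
import Pool.Agent.H31.TQ.LEXF
import Pool.Agent.H20.TQ.COMPR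
import Pool.Agent.H20.TQ.ISO
import Pool.Agent.H20.TQ.PAIR
import Pool.Agent.H89.TQ.LFP
import Pool.Agent.H89.TQ.SAMP
import Pool.Agent.H89.TQ.SAMPF
import Pool.Agent.H89.TQ.TWO
import Pool.Agent.H34.TQ.SHIFT
import Pool.Agent.H57.TQ.UPD
import Pool.Agent.H33.TQ.LTB
import Pool.Agent.H33.TQ.SIM
import Pool.Agent.H83.TQ.SEARCH
import Pool.Agent.H83.TQ.ITER
import Pool.Agent.H81.TQ.RHO
import Pool.Agent.H81.TQ.SOLVE
import Pool.Agent.H81.TQ.HALF
import Pool.Agent.H74.TQ.TOSAT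
import Pool.Agent.H74.TQ.FOLDS
import Pool.Agent.H74.TQ.EXFP

/-!
# Two queries: the theorem
-/

set_option autoImplicit false

namespace Pool.TQ

open Pool.TwoQueries

/-- **If `P^{SAT[1]} = P_||^{SAT[2]}` then `PH = P^{SAT[1]}`.** -/
theorem main : PSAT1 = PSAT2 → PH = PSAT1 :=
  main_of code (tosat74 code) bind (iter bind) sim folds74 (search lexf lexm) lexf lexm ltb_thm
    ctx key rho' strong solve dbl' upd wb wbp bsearch avoid star pair iso samp_thm block shift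
    half compr learn_thm45 clen sampf cfp lfp cex par adv exfp74 two chain chnp adapt satnp
    sathard one pt dp phfp low

end Pool.TQ
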