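import Pool.Agent.TM.Closure

/-!
# Predicates with polynomial size certificates (copied from helper48, Pool/Agent/H48/NE/NPp.lean)
-/

namespace Pool.TQ

open TMLib Polynomial

variable {α β γ δ σ τ : Type} [Enc α] [Enc β] [Enc γ] [Enc δ] [Enc σ] [Enc τ]

/-- Predicates with polynomial time verifiers and certificates of polynomial size. -/
def NPp (P : α → Prop) : Prop :=
  ∃ (V : α → D → Bool) (q : ℕ[X]), (PTime fun p : α × D => V p.1 p.2) ∧
    (∀ a w, V a w = true → P a) ∧ ∀ a, P a → ∃ w : D, w.size ≤ q.eval (sz a) ∧ V a w = true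

namespace NPp

lemma congr {P Q : α → Prop} (h : NPp P) (hPQ : ∀ a, Q a ↔ P a) : NPp Q := by
  rwa [show Q = P from funext fun a => propext (hPQ a)]

lemma of_ptime {P : α → Prop} [∀ a, Decidable (P a)] (h : PTime fun a => decide (P a)) : NPp P :=
  ⟨fun a _ => decide (P a), 1, h.comp (PTime.fst PTime.id), fun a w h => by simpa using h,
    fun a h => ⟨D.nil, by simp, by simpa using h⟩⟩

lemma and {P Q : α → Prop} (h : NPp P) (h' : NPp Q) : NPp fun a => P a ∧ Q a := by
  obtain ⟨V, q, h1, h2, h3⟩ := h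
  obtain ⟨V', q', h1', h2', h3'⟩ := h'
  refine ⟨fun a w => V a w.hd && V' a w.tl, 1 + q + q', ?_, ?_, ?_⟩
  · refine PTime.and ?_ ?_
    · exact h1.comp (f := fun p : α × D => (p.1, p.2.hd)) (by fun_prop)
    · exact h1'.comp (f := fun p : α × D => (p.1, p.2.tl)) (by fun_prop)
  · intro a w hw
    simp only [Bool.and_eq_true] at hw
    exact ⟨h2 _ _ hw.1, h2' _ _ hw.2⟩
  · rintro a ⟨ha, ha'⟩
    obtain ⟨w, hw, hw'⟩ := h3 a ha
    obtain ⟨v, hv, hv'⟩ := h3' a ha'
    refine ⟨D.cons w v, ?_, by simp [hw', hv']⟩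
    have e1 : eval (sz a) (1 : ℕ[X]) = 1 := by simp
    simp only [D.size_cons, eval_add, e1]
    omega

lemma or {P Q : α → Prop} (h : NPp P) (h' : NPp Q) : NPp fun a => P a ∨ Q a := by
  obtain ⟨V, q, h1, h2, h3⟩ := h
  obtain ⟨V', q', h1', h2', h3'⟩ := h'
  refine ⟨fun a w => V a w || V' a w, q + q', PTime.or h1 h1', ?_, ?_⟩
  · intro a w hw
    simp only [Bool.or_eq_true] at hw
    rcases hw with hw | hw
    · exact Or.inl (h2 _ _ hw)
    · exact Or.inr (h2' _ _ hw)
  · rintro a (ha | ha)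
    · obtain ⟨w, hw, hw'⟩ := h3 a ha
      exact ⟨w, by simp only [eval_add]; omega, by simp [hw']⟩
    · obtain ⟨w, hw, hw'⟩ := h3' a ha
      exact ⟨w, by simp only [eval_add]; omega, by simp [hw']⟩

lemma comp {P : β → Prop} (h : NPp P) {g : α → β} (hg : PTime g) : NPp fun a => P (g a) := by
  obtain ⟨V, q, h1, h2, h3⟩ := h
  obtain ⟨B, hB⟩ := hg.exists_size_le
  refine ⟨fun a w => V (g a) w, q.comp B, ?_, fun a w => h2 _ _, fun a ha => ?_⟩
  · exact h1.comp (f := fun p : α × D => (g p.1, p.2)) (PTime.pair (hg.comp (PTime.fst PTime.id))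
      (PTime.snd PTime.id))
  · obtain ⟨w, hw, hw'⟩ := h3 _ ha
    exact ⟨w, by rw [eval_comp]; exact hw.trans (eval_mono q (hB a)), hw'⟩

/-- Bounded existential quantifier. -/
lemma exists_le [TMLib.Fix β] {R : α → β → Prop} (hR : NPp fun p : α × β => R p.1 p.2) {q : α → ℕ}
    (hq : PTime q) : NPp fun a => ∃ b : β, sz b ≤ q a ∧ R a b := by
  obtain ⟨V, P, h1, h2, h3⟩ := hR
  obtain ⟨B, hB⟩ := hq.exists_size_le
  refine ⟨fun a w => decide (sz (TMLib.Fix.fix w.hd : β) ≤ q a) && V (a, TMLib.Fix.fix w.hd) w.tl,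
    1 + B + P.comp (1 + X + B), ?_, ?_, ?_⟩
  · refine PTime.and ?_ ?_
    · have e1 : PTime fun p : α × D => sz (TMLib.Fix.fix p.2.hd : β) := by fun_prop
      exact PTime.le e1 (hq.comp (PTime.fst PTime.id))
    · exact h1.comp (f := fun p : α × D => ((p.1, (TMLib.Fix.fix p.2.hd : β)), p.2.tl))
        (by fun_prop)
  · intro a w hw
    simp only [Bool.and_eq_true, decide_eq_true_eq] at hw
    exact ⟨_, hw.1, h2 _ _ hw.2⟩
  · rintro a ⟨b, hb, hb'⟩
    obtain ⟨w, hw, hw'⟩ := h3 (a, b) hb'
    refine ⟨D.cons (enc b) w, ?_, ?_⟩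
    · have e1 : eval (sz a) (1 : ℕ[X]) = 1 := by simp
      have e2 : (enc b).size = sz b := rfl
      have e3 := hB a
      simp only [sz_nat] at e3
      have e4 := eval_mono P (show sz (a, b) ≤ 1 + sz a + B.eval (sz a) by
        rw [sz_pair]; simp only; omega)
      simp only [D.size_cons, eval_add, eval_comp, eval_X, e1]
      omega
    · simp only [D.hd_cons, D.tl_cons, TMLib.Fix.fix_enc, Bool.and_eq_true, decide_eq_true_eq]
      exact ⟨hb, hw'⟩

/-- Quantification over the elements of a list. -/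
lemma exists_mem [TMLib.Fix β] [EncInj β] {R : α → β → Prop}
    (hR : NPp fun p : α × β => R p.1 p.2) {l : α → List β} (hl : PTime l) :
    NPp fun a => ∃ b ∈ l a, R a b := by
  classical
  refine (exists_le (R := fun a b => b ∈ l a ∧ R a b) ?_ (q := fun a => sz (l a))
    (PTime.sz' hl)).congr fun a => ⟨?_, ?_⟩
  · exact (of_ptime (P := fun p : α × β => p.2 ∈ l p.1) (PTime.mem (PTime.snd PTime.id)
      (hl.comp (PTime.fst PTime.id)))).and hR
  · rintro ⟨b, hb, hb'⟩
    exact ⟨b, (sz_le_of_mem hb).le, hb, hb'⟩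
  · rintro ⟨b, -, hb, hb'⟩
    exact ⟨b, hb, hb'⟩

lemma forall_mem {R : α → β → Prop} (hR : NPp fun p : α × β => R p.1 p.2)
    {l : α → List β} (hl : PTime l) : NPp fun a => ∀ b ∈ l a, R a b := by
  classical
  obtain ⟨V, P, h1, h2, h3⟩ := hR
  obtain ⟨B, hB⟩ := hl.exists_size_le
  refine ⟨fun a w => decide (w.spine.length = (l a).length) &&
    ((l a).zip w.spine).all fun p => V (a, p.1) p.2, 1 + B * (1 + P.comp (1 + X + B)), ?_, ?_, ?_⟩
  · refine PTime.and ?_ ?_
    · have e1 : PTime fun p : α × D => p.2.spine.length := by fun_prop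
      exact PTime.eq e1 (PTime.length (hl.comp (PTime.fst PTime.id)))
    · refine PTime.all (g := fun (p : α × D) (x : β × D) => V (p.1, x.1) x.2) ?_ ?_
      · exact PTime.zip (hl.comp (PTime.fst PTime.id)) (by fun_prop)
      · exact h1.comp (f := fun q : (α × D) × (β × D) => ((q.1.1, q.2.1), q.2.2)) (by fun_prop)
  · intro a w hw b hb
    simp only [Bool.and_eq_true, decide_eq_true_eq, List.all_eq_true] at hw
    obtain ⟨hw1, hw2⟩ := hw
    obtain ⟨i, hi, rfl⟩ := List.getElem_of_mem hb
    have hi' : i < w.spine.length := by omega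
    have hz : ((l a)[i], w.spine[i]) ∈ (l a).zip w.spine := by
      have : ((l a).zip w.spine)[i]'(by simp; omega) = ((l a)[i], w.spine[i]) := by simp
      rw [← this]
      exact List.getElem_mem _
    exact h2 _ _ (hw2 _ hz)
  · intro a ha
    have hch : ∀ b : β, ∃ w : D, b ∈ l a → w.size ≤ P.eval (sz (a, b)) ∧ V (a, b) w = true := by
      intro b
      by_cases hb : b ∈ l a
      · obtain ⟨w, hw, hw'⟩ := h3 (a, b) (ha b hb)
        exact ⟨w, fun _ => ⟨hw, hw'⟩⟩
      · exact ⟨D.nil, fun h => absurd h hb⟩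
    choose W hW using hch
    have hsp : (enc ((l a).map W)).spine = (l a).map W := by
      rw [spine_enc_list, List.map_map]
      rfl
    refine ⟨enc ((l a).map W), ?_, ?_⟩
    · have e1 : eval (sz a) (1 : ℕ[X]) = 1 := by simp
      have e2 : (enc ((l a).map W)).size = sz ((l a).map W) := rfl
      have hla := hB a
      have h4 := sz_list_le ((l a).map W) (B.eval (sz a)) (P.eval (1 + sz a + B.eval (sz a)))
        (by
          have := length_lt_sz (l a)
          rw [List.length_map]
          omega)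
        (by
          intro w hw
          obtain ⟨b, hb, rfl⟩ := List.mem_map.1 hw
          refine ((hW b hb).1).trans (eval_mono P ?_)
          have := sz_le_of_mem hb
          rw [sz_pair]
          simp only
          omega)
      rw [e2]
      simp only [eval_add, eval_mul, eval_comp, eval_X, e1]
      exact h4
    · simp only [hsp, List.length_map, decide_true, Bool.true_and, List.all_eq_true]
      rintro ⟨b, w⟩ hp
      have hb := (List.of_mem_zip hp).1
      have hw : w = W b := by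
        obtain ⟨i, hi, hi'⟩ := List.getElem_of_mem hp
        simp only [List.getElem_zip, List.getElem_map, Prod.mk.injEq] at hi'
        rw [← hi'.2, hi'.1]
      rw [hw]
      exact (hW b hb).2

end NPp

end Pool.TQ
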