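import Pool.Agent.H74.TQ.Calc

/-!
# Two queries: statements of the modules

Every module takes the modules it depends on as hypotheses.  Proofs in words: /team-store/TQ_PLAN.md
and /team-store/TWOQ_PROOF.md.
-/

set_option autoImplicit false

namespace Pool.TQ

open TMLib Polynomial

/-! ### Part 1: framework -/

/-- the code of a tree as a bit string -/
def S_CODE : Prop := PTime (fun x : D => x.code)

/-- Cook-Levin for predicates on encoded types (from `S_CODE` and `cook_levin`) -/
def S_TOSAT : Prop := ∀ {α : Type} [Enc α] [TMLib.Fix α] {R : α → Prop}, NPp R →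
    ∃ f : α → Form, PTime f ∧ ∀ x, R x ↔ Sat (f x)

/-- composition, keeping the input -/
def S_BIND : Prop := ∀ {α β γ : Type} [Enc α] [Enc β] [Enc γ] {f : α → β} {g : α × β → γ},
    FPNP f → FPNP g → FPNP (fun x => g (x, f x))

/-- bounded iteration -/
def S_ITER : Prop := ∀ {α β : Type} [Enc α] [Enc β] {step : β → β} {s : α → β} {n : α → ℕ}
    {h : α → ℕ}, FPNP step → FPNP s → PTime n → PB h →
    (∀ x i, i ≤ n x → sz (step^[i] (s x)) ≤ h x) → FPNP (fun x => step^[n x] (s x))

/-- simulation of the oracle by a polynomial time algorithm with a key -/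
def S_SIM : Prop := ∀ {α β κ : Type} [Enc α] [Enc β] [Enc κ] {f : α → β}, FPNP f →
    ∀ {A : κ × Form → Bool}, PTime A → ∃ (F : κ × α → β) (B : ℕ[X]), PTime F ∧
      ∀ k x, (∀ ψ : Form, sz ψ ≤ B.eval (sz x) → A (k, ψ) = satb ψ) → F (k, x) = f x

/-- folds, maps, filters (all derived from `Calc`) -/
structure Folds : Prop where
  foldl : ∀ {α β σ : Type} [Enc α] [Enc β] [Enc σ] {f : α → σ → β → σ} {init : α → σ}
    {l : α → List β}, FPNP (fun p : α × σ × β => f p.1 p.2.1 p.2.2) → FPNP init → FPNP l →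
    ∀ {h : α → ℕ}, PB h → (∀ a l', l' <+: l a → sz (l'.foldl (f a) (init a)) ≤ h a) →
    FPNP (fun a => (l a).foldl (f a) (init a))
  map : ∀ {α β γ : Type} [Enc α] [Enc β] [Enc γ] {l : α → List β} {g : α → β → γ},
    FPNP l → FPNP (fun p : α × β => g p.1 p.2) → FPNP (fun x => (l x).map (g x))
  flatMap : ∀ {α β γ : Type} [Enc α] [Enc β] [Enc γ] {l : α → List β} {g : α → β → List γ},
    FPNP l → FPNP (fun p : α × β => g p.1 p.2) → FPNP (fun x => (l x).flatMap (g x))
  all : ∀ {α β : Type} [Enc α] [Enc β] {l : α → List β} {g : α → β → Bool},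
    FPNP l → FPNP (fun p : α × β => g p.1 p.2) → FPNP (fun x => (l x).all (g x))

def S_FOLDS : Prop := Calc → Folds

/-- search for NP witnesses of a given size bound -/
def S_SEARCH : Prop := Calc → ∀ {α β : Type} [Enc α] [Enc β] [TMLib.Fix α] [TMLib.Fix β]
    {R : α → β → Prop} {q : α → ℕ}, NPp (fun p : α × β => R p.1 p.2) → PTime q →
    ∃ w : α → Option β, FPNP w ∧ (∀ x b, w x = some b → sz b ≤ q x ∧ R x b) ∧
      ∀ x, w x = none → ∀ b, sz b ≤ q x → ¬ R x b

/-- `lexmin` is computable with the oracle -/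
def S_LEXF : Prop := Calc → ∀ {α : Type} [Enc α] [TMLib.Fix α] {R : α → List Bool → Prop}
    {N : α → ℕ}, NPp (fun p : α × List Bool => R p.1 p.2) → PTime N →
    FPNP (fun x => lexmin (R x) (N x))

/-- properties of `lexmin` -/
def S_LEXM : Prop := ∀ (R : List Bool → Prop) (N : ℕ), (lexmin R N).length = N ∧
    ∀ w : List Bool, w.length = N → R w →
      R (lexmin R N) ∧ (w = lexmin R N ∨ ltb (lexmin R N) w = true)

/-- properties of the lexicographic order -/
structure LtbProps : Prop where
  ptime : PTime (fun p : List Bool × List Bool => ltb p.1 p.2)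
  irrefl : ∀ l, ltb l l = false
  trans : ∀ l l' l'', ltb l l' = true → ltb l' l'' = true → ltb l l'' = true
  total : ∀ l l' : List Bool, l.length = l'.length → ltb l l' = true ∨ l = l' ∨ ltb l' l = true
  append : ∀ u v u' v' : List Bool, u.length = u'.length →
    ltb (u ++ v) (u' ++ v') = (ltb u u' || (decide (u = u') && ltb v v'))
  zeros : ∀ (l : List Bool) (k : ℕ), ltb l (List.replicate k false) = false

def S_LTB : Prop := LtbProps

/-! ### Part 2: the base structure -/

/-- the context exists as soon as the question `F₁ ∈ SAT ∧ F₂ ∉ SAT` has one query normal form -/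
def S_CTX : Prop := Calc → OneQ (fun p : Form × Form => Sat p.1 ∧ ¬ Sat p.2) → Nonempty Ctx

/-- basic properties of certificates and keys -/
structure KeyProps (c : Ctx) : Prop where
  /-- `E` is an NP predicate -/
  nppE : NPp (fun p : ℕ × Form => c.E p.1 p.2)
  /-- `E` is sound -/
  sound : ∀ m F, c.E m F → ¬ Sat F
  /-- `PS` is an NP predicate of key and formula -/
  nppPS : NPp (fun p : Form × Form => c.PS p.1 p.2)
  /-- Kadin: hard formulas are keys -/
  key : ∀ m F, c.Hard m F → ∀ φ : Form, sz φ ≤ m → (¬ Sat φ ↔ c.PS F φ)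

def S_KEY : Prop := ∀ c : Ctx, KeyProps c

/-- self-reduction -/
structure RhoProps : Prop where
  ptime : PTime rho
  ptimeChk : PTime chk
  nil : ∀ φ, rho (φ, []) = φ
  split : ∀ φ π, Sat (rho (φ, π)) ↔ (Sat (rho (φ, π ++ [false])) ∨ Sat (rho (φ, π ++ [true])))
  leaf : ∀ φ π, sz φ ≤ π.length → (Sat (rho (φ, π)) ↔ chk (φ, π) = true)
  sat : ∀ φ π, Sat (rho (φ, π)) → Sat φ

def S_RHO : Prop := RhoProps

/-- properties of strong keys and extended certificates (Lemma B) -/
structure StrongProps (c : Ctx) : Prop where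
  nppU : NPp (fun p : ℕ × Form => c.UCert p.1 p.2)
  soundU : ∀ m φ, c.UCert m φ → ¬ Sat φ
  strong : ∀ m φ, ¬ Sat φ → ¬ c.UCert m φ →
    ∃ π : List Bool, π.length ≤ sz φ ∧ c.Strong m (φ, π)
  ptimeAlg : PTime c.alg

def S_STRONG : Prop := RhoProps → ∀ c : Ctx, KeyProps c → StrongProps c

/-- the search algorithm; `M n` bounds the sizes of the formulas in the self-reduction -/
structure SolveProps (c : Ctx) (M : ℕ → ℕ) : Prop where
  pM : PTime M
  ptime : PTime c.solve
  sound : ∀ κ φ, c.solve (κ, φ) = true → Sat φ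
  complete : ∀ n m κ φ, M n ≤ m → c.Strong m (Ctx.kdec κ) → sz φ ≤ n → Sat φ →
    c.solve (κ, φ) = true

def S_SOLVE : Prop := RhoProps → ∀ c : Ctx, PTime c.alg → ∃ M : ℕ → ℕ, SolveProps c M

/-! ### Part 3: range avoidance -/

/-- from `{0,1}^K → {0,1}^(K+1)` to `{0,1}^K → {0,1}^K × {0,1}^K` -/
def S_DBL : Prop := Calc → S_SEARCH → ∀ (C : ℕ × List Bool → List Bool) (K : ℕ → ℕ),
    Stretch C K → Double (dbl C K) K ∧
      ∃ pull : ℕ × (List Bool × List Bool) → List Bool, FPNP pull ∧
        ∀ (n : ℕ) (l r : List Bool), l.length = K n → r.length = K n →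
          (∀ x : List Bool, x.length = K n → dbl C K (n, x) ≠ (l, r)) →
          (pull (n, (l, r))).length = K n + 1 ∧
            ∀ x : List Bool, x.length = K n → C (n, x) ≠ pull (n, (l, r))

/-- changing one leaf of a tree, or finding a pair outside the range -/
def S_UPD : Prop := Calc → S_SEARCH → Folds → ∀ (f : ℕ × List Bool → List Bool × List Bool)
    (K : ℕ → ℕ), Double f K →
    ∃ upd : ℕ × (List Bool × List Bool × List Bool) →
        List Bool × Option (List Bool × List Bool), FPNP upd ∧
      ∀ (n : ℕ) (e p v : List Bool), e.length = K n → v.length = K n →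
        (∀ l r, (upd (n, (e, p, v))).2 = some (l, r) → l.length = K n ∧ r.length = K n ∧
          ∀ x : List Bool, x.length = K n → f (n, x) ≠ (l, r)) ∧
        ((upd (n, (e, p, v))).2 = none → (upd (n, (e, p, v))).1.length = K n ∧
          ∀ p' : List Bool, p'.length = p.length →
            dec (fun x => f (n, x)) (upd (n, (e, p, v))).1 p' =
              if p' = p then v else dec (fun x => f (n, x)) e p')

/-- the formula `FF (n, (i, e))` for `WrongBefore` -/
def S_WB : Prop := Calc → LtbProps → ∀ (f : ℕ × List Bool → List Bool × List Bool)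
    (K : ℕ → ℕ), Double f K → ∃ FF : ℕ × (List Bool × List Bool) → Form, PTime FF ∧
      ∀ (n : ℕ) (i e : List Bool), e.length = K n →
        (Sat (FF (n, (i, e))) ↔ WrongBefore (fun x => f (n, x)) (K n) i e)

/-- facts on `WrongBefore`: nothing before zero, diagonalisation at the top, one more leaf -/
structure WBProps (f : List Bool → List Bool × List Bool) (k : ℕ) : Prop where
  zero : ∀ e, ¬ WrongBefore f k (List.replicate (k + 1) false) e
  top : ∀ e, e.length = k → WrongBefore f k (true :: List.replicate k false) e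
  next : ∀ e e' π hi : List Bool, π.length = k →
    (∀ j : List Bool, j.length = k → (ltb (false :: j) hi = true ↔ (ltb j π = true ∨ j = π))) →
    ¬ WrongBefore f k (false :: π) e →
    (∀ j : List Bool, j.length = k → dec f e' j = if j = π then target f π else dec f e j) →
    ¬ WrongBefore f k hi e'

def S_WBP : Prop := LtbProps → ∀ (f : List Bool → List Bool × List Bool) (k : ℕ), 1 ≤ k →
    (∀ x : List Bool, x.length = k → (f x).1.length = k) →
    (∀ x : List Bool, x.length = k → (f x).2.length = k) → WBProps f k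

/-- binary search for a place where a predicate changes from true to false -/
def S_BSEARCH : Prop := Calc → LtbProps → ∀ {α : Type} [Enc α] [TMLib.Fix α]
    {θ : α → List Bool → Prop} {k : α → ℕ}, NPp (fun p : α × List Bool => θ p.1 p.2) →
    PTime k → ∃ bs : α → List Bool × List Bool, FPNP bs ∧
      ∀ x, θ x (List.replicate (k x + 1) false) →
        ¬ θ x (true :: List.replicate (k x) false) →
        (bs x).1.length = k x ∧ θ x (false :: (bs x).1) ∧ ¬ θ x (bs x).2 ∧
        ∀ j : List Bool, j.length = k x →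
          (ltb (false :: j) (bs x).2 = true ↔ (ltb j (bs x).1 = true ∨ j = (bs x).1))

/-- **Range avoidance or a hard formula.** -/
def AvoidSpec (c : Ctx) (C : ℕ × List Bool → List Bool) (K m : ℕ → ℕ)
    (Av : ℕ → List Bool × Option Form) : Prop :=
  ∀ n, (∀ F, (Av n).2 = some F → c.Hard (m n) F) ∧
    ((Av n).2 = none → (Av n).1.length = K n + 1 ∧
      ∀ x : List Bool, x.length = K n → C (n, x) ≠ (Av n).1)

def S_AVOID : Prop := Calc → LtbProps → S_SEARCH → S_DBL → S_UPD → S_WB → S_WBP → S_BSEARCH →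
    Folds → ∀ c : Ctx, KeyProps c → ∀ (C : ℕ × List Bool → List Bool) (K m : ℕ → ℕ),
    Stretch C K → PTime m → ∃ Av : ℕ → List Bool × Option Form, FPNP Av ∧ AvoidSpec c C K m Av

/-- Range avoidance for functions computed with the oracle, when there is a strong key. -/
def StarSpec (c : Ctx) (Cs : ℕ × List Bool → List Bool) (K a : ℕ → ℕ)
    (Av : ℕ → List Bool × Option Form) (m₀ : ℕ → ℕ) : Prop :=
  ∀ n, (∀ F, (Av n).2 = some F → c.Hard n F) ∧
    ((Av n).2 = none → (Av n).1.length = K n + a n + 1 ∧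
      ∀ m, m₀ n ≤ m → (∃ κ : List Bool, κ.length = a n ∧ c.Strong m (Ctx.kdec κ)) →
        ∀ x : List Bool, x.length = K n → Cs (n, x) ≠ (Av n).1)

def S_STAR : Prop := Calc → S_SIM → ∀ c : Ctx, PTime c.alg →
    (∀ (C : ℕ × List Bool → List Bool) (K m : ℕ → ℕ), Stretch C K → PTime m →
      ∃ Av : ℕ → List Bool × Option Form, FPNP Av ∧ AvoidSpec c C K m Av) →
    ∀ (Cs : ℕ × List Bool → List Bool) (K a : ℕ → ℕ), FPNP Cs → PTime K → PTime a →
      (∀ n, 1 ≤ K n) →
      (∀ (n : ℕ) (x : List Bool), x.length = K n → (Cs (n, x)).length = K n + a n + 1) →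
      ∃ (Av : ℕ → List Bool × Option Form) (m₀ : ℕ → ℕ), FPNP Av ∧ PTime m₀ ∧
        StarSpec c Cs K a Av m₀

/-! ### Part 4: hashing and learning -/

/-- pairwise independence -/
structure PairInd : Prop where
  one : ∀ (a k : ℕ) (κ : List Bool), κ.length = a → k ≤ a + 2 →
    ((bits (hbits a)).filter fun h => (hval a h κ).take k = List.replicate k false).card * 2 ^ k =
      2 ^ hbits a
  two : ∀ (a k : ℕ) (κ κ' : List Bool), κ.length = a → κ'.length = a → κ ≠ κ' → k ≤ a + 2 →
    ((bits (hbits a)).filter fun h => (hval a h κ).take k = List.replicate k false ∧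
      (hval a h κ').take k = List.replicate k false).card * 4 ^ k = 2 ^ hbits a

def S_PAIR : Prop := PairInd

open Classical in
/-- isolation: a random hash function isolates an element of the larger half -/
def S_ISO : Prop := PairInd → ∀ (a : ℕ) (V W : Finset (List Bool)), W ⊆ V → V ⊆ bits a →
    V.card < 2 * W.card →
    2 ^ hbits a ≤ 16 * ((bits (hbits a)).filter fun h => ∃ k ≤ a + 2, ∃ κ ∈ W,
      (hval a h κ).take k = List.replicate k false ∧
      ∀ κ' ∈ V, (hval a h κ').take k = List.replicate k false → κ' = κ).card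

/-- if `κ` is isolated among the living keys then it is the sample -/
def S_SAMP : Prop := S_LEXM → LtbProps → ∀ (S : List Bool × Form → Bool) (a k : ℕ)
    (Φ : List Form) (h κ : List Bool), k ≤ a + 2 → Alive S a Φ κ →
    (hval a h κ).take k = List.replicate k false →
    (∀ κ', Alive S a Φ κ' → (hval a h κ').take k = List.replicate k false → κ' = κ) →
    samp S a Φ h = κ

open Classical in
/-- blocks: if many hash functions are good then few blocks have no good hash function -/
def S_BLOCK : Prop := ∀ (a g : ℕ) (T : Finset (List Bool)),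
    2 ^ hbits a ≤ 16 * ((bits (hbits a)).filter fun h => h ∈ T).card →
    ((bits (g * hbits a)).filter fun x => ∀ h ∈ cut g (hbits a) x, h ∉ T).card * 16 ^ g ≤
      15 ^ g * 2 ^ (g * hbits a)

/-- a common shift moves given strings out of a small set -/
def S_SHIFT : Prop := ∀ (l : ℕ) (Bad : Finset (List Bool)) (xs : List (List Bool)),
    Bad ⊆ bits l → (∀ x ∈ xs, x.length = l) → xs.length * Bad.card < 2 ^ l →
    ∃ y : List Bool, y.length = l ∧ ∀ x ∈ xs, xorl x y ∉ Bad

open Classical in
/-- compression: a bad string `H` is an output of `cstar` -/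
def S_COMPR : Prop := S_SHIFT → ∀ (S : List Bool × Form → Bool) (P : Par) (n : ℕ) (H : List Bool)
    (Φ : List Form) (φ : Form), H.length = P.K n + P.a n + 1 → Φ.length ≤ P.a n + 1 →
    (∀ ψ ∈ Φ, sz ψ ≤ n) → sz φ ≤ n →
    (∀ κ ∈ samples S P n H Φ, S (κ, φ) = false) →
    P.s n * ((bits (P.ell n)).filter fun x => BadBlock S (P.a n) (P.g n) Φ φ x).card <
      2 ^ P.ell n →
    ∃ x : List Bool, x.length = P.K n ∧ cstar S P (n, x) = H

open Classical in
/-- if `φ` does not kill half of the living keys then there are few bad blocks -/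
def S_HALF : Prop := PairInd → S_ISO → S_SAMP → S_BLOCK → S_LEXM → LtbProps →
    ∀ (S : List Bool × Form → Bool) (P : Par) (n : ℕ) (Φ : List Form) (φ : Form),
    ((bits (P.a n)).filter fun κ => Alive S (P.a n) Φ κ).card <
      2 * ((bits (P.a n)).filter fun κ => Alive S (P.a n) (Φ ++ [φ]) κ).card →
    P.s n * ((bits (P.ell n)).filter fun x => BadBlock S (P.a n) (P.g n) Φ φ x).card <
      2 ^ P.ell n

/-- the learning procedure works (Lemma D) -/
def LearnSpec (S : List Bool × Form → Bool) (P : Par)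
    (cex : ℕ × List (List Bool) → Option Form) : Prop :=
  ∀ (n : ℕ) (H : List Bool), H.length = P.K n + P.a n + 1 →
    (∃ κ : List Bool, κ.length = P.a n ∧ ∀ φ : Form, sz φ ≤ n → Sat φ → S (κ, φ) = true) →
    (∀ x : List Bool, x.length = P.K n → cstar S P (n, x) ≠ H) →
    ∀ φ : Form, sz φ ≤ n → Sat φ → ∃ κ ∈ learn S P cex (n, H), S (κ, φ) = true

open Classical in
def S_LEARN : Prop :=
    (∀ (S : List Bool × Form → Bool) (P : Par) (n : ℕ) (Φ : List Form) (φ : Form),
      ((bits (P.a n)).filter fun κ => Alive S (P.a n) Φ κ).card <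
        2 * ((bits (P.a n)).filter fun κ => Alive S (P.a n) (Φ ++ [φ]) κ).card →
      P.s n * ((bits (P.ell n)).filter fun x => BadBlock S (P.a n) (P.g n) Φ φ x).card <
        2 ^ P.ell n) → S_SHIFT → S_COMPR →
    ∀ (S : List Bool × Form → Bool) (P : Par) (cex : ℕ × List (List Bool) → Option Form),
      IsCex S cex → LearnSpec S P cex

/-- lengths of the outputs of `cstar` -/
def S_CLEN : Prop := ∀ (S : List Bool × Form → Bool) (P : Par) (n : ℕ) (x : List Bool),
    x.length = P.K n → (cstar S P (n, x)).length = P.K n + P.a n + 1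

/-- the sample is computable with the oracle -/
def S_SAMPF : Prop := Calc → S_LEXF → ∀ {S : List Bool × Form → Bool}, PTime S →
    FPNP (fun p : ℕ × List Form × List Bool => samp S p.1 p.2.1 p.2.2)

/-- `cstar` is computable with the oracle -/
def S_CFP : Prop := Calc → Folds → ∀ {S : List Bool × Form → Bool} (P : Par), PTime S →
    FPNP (fun p : ℕ × List Form × List Bool => samp S p.1 p.2.1 p.2.2) → FPNP (cstar S P)

/-- `learn` is computable with the oracle -/
def S_LFP : Prop := Calc → Folds → ∀ {S : List Bool × Form → Bool} (P : Par)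
    {cex : ℕ × List (List Bool) → Option Form}, PTime S → FPNP cex → IsCex S cex →
    FPNP (fun p : ℕ × List Form × List Bool => samp S p.1 p.2.1 p.2.2) → FPNP (learn S P cex)

/-- counterexamples can be found with the oracle -/
def S_CEX : Prop := Calc → S_SEARCH → ∀ {S : List Bool × Form → Bool}, PTime S →
    ∃ cex : ℕ × List (List Bool) → Option Form, FPNP cex ∧ IsCex S cex

/-- parameters exist -/
def S_PAR : Prop := ∀ a : ℕ → ℕ, PTime a → ∃ P : Par, P.a = a

/-! ### Part 5: advice and the hierarchy -/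

/-- UNSAT has NP certificates relative to an advice computable with the oracle -/
def HasAdv : Prop := ∃ (Adv : ℕ → D) (U : Form → D → Prop), FPNP Adv ∧
    NPp (fun p : Form × D => U p.1 p.2) ∧
    ∀ (n : ℕ) (φ : Form), sz φ ≤ n → (¬ Sat φ ↔ U φ (Adv n))

/-- assembly of the advice -/
def S_ADV : Prop := Calc → Folds → ∀ c : Ctx, KeyProps c → StrongProps c →
    ∀ M : ℕ → ℕ, SolveProps c M →
    -- range avoidance with strong keys
    (∀ (Cs : ℕ × List Bool → List Bool) (K a : ℕ → ℕ), FPNP Cs → PTime K → PTime a →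
      (∀ n, 1 ≤ K n) →
      (∀ (n : ℕ) (x : List Bool), x.length = K n → (Cs (n, x)).length = K n + a n + 1) →
      ∃ (Av : ℕ → List Bool × Option Form) (m₀ : ℕ → ℕ), FPNP Av ∧ PTime m₀ ∧
        StarSpec c Cs K a Av m₀) →
    -- learning
    (∀ (P : Par), ∃ cex : ℕ × List (List Bool) → Option Form, FPNP cex ∧ IsCex c.solve cex ∧
      FPNP (learn c.solve P cex) ∧ FPNP (cstar c.solve P) ∧ LearnSpec c.solve P cex ∧
      ∀ (n : ℕ) (x : List Bool), x.length = P.K n →
        (cstar c.solve P (n, x)).length = P.K n + P.a n + 1) →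
    S_PAR → HasAdv

/-- bounded existential quantification of predicates computable with the oracle -/
def S_EXFP : Prop := Calc → HasAdv → ∀ {α β : Type} [Enc α] [Enc β] [TMLib.Fix α] [TMLib.Fix β]
    {R : α × β → Bool} {q : α → ℕ}, FPNP R → PTime q →
    ∃ g : α → Bool, FPNP g ∧ ∀ x, g x = true ↔ ∃ b : β, sz b ≤ q x ∧ R (x, b) = true

/-! ### Part 6: one query is enough for adaptive queries -/

/-- two difference questions in one query -/
def S_TWO : Prop := Calc → ∀ _ : Ctx, ∀ {α : Type} [Enc α] [TMLib.Fix α] {X₁ X₀ Y₁ : α → Prop},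
    NPp X₁ → NPp X₀ → NPp Y₁ → OneQ (fun x => X₁ x ∨ (¬ X₀ x ∧ Y₁ x))

section chain

variable {α : Type}

/-- certified prefix of a transcript -/
def Cp (c : Ctx) (Q : α × List Bool → Form) (m : ℕ) (x : α) (w : List Bool) : Prop :=
  ∀ j < w.length, (w.getD j false = true ∧ Sat (Q (x, w.take j))) ∨
    (w.getD j false = false ∧ c.E m (Q (x, w.take j)))

/-- there is a certified prefix of length `i` -/
def Ci (c : Ctx) (Q : α × List Bool → Form) (m : ℕ) (x : α) (i : ℕ) : Prop :=
  ∃ w : List Bool, w.length = i ∧ Cp c Q m x w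

/-- transcript of length `T`, certified up to `i`, answer number `i` is no, and the later answers
are certified relative to the key which is query number `i` -/
def Full (c : Ctx) (Q : α × List Bool → Form) (m : ℕ) (x : α) (T i : ℕ) (w : List Bool) : Prop :=
  w.length = T ∧ i < T ∧ Cp c Q m x (w.take i) ∧ w.getD i false = false ∧
    ∀ j < T, i < j → (w.getD j false = true ∧ Sat (Q (x, w.take j))) ∨
      (w.getD j false = false ∧ c.PS (Q (x, w.take i)) (Q (x, w.take j)))

variable (c : Ctx) (Q : α × List Bool → Form) (O : α × List Bool → Bool) (CF : α × ℕ → Form)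

/-- `b (C_i, C_l)` -/
def bb (x : α) (i l : ℕ) : Bool := c.b (CF (x, i), CF (x, l))

/-- `G (C_i, C_l)` -/
def GG (x : α) (i l : ℕ) : Form := c.G (CF (x, i), CF (x, l))

/-- the output `v` is certified -/
def XX (m : ℕ) (T : ℕ) (v : Bool) (x : α) : Prop :=
  (∃ w : List Bool, w.length = T ∧ Cp c Q m x w ∧ O (x, w) = v) ∨
  ∃ (i : ℕ) (w : List Bool) (i' : ℕ), i < T ∧ Full c Q m x T i w ∧ O (x, w) = v ∧ i' ≤ i ∧
    bb c CF x i' (i + 1) = false ∧ Sat (GG c CF x i' (i + 1))

/-- the output `v` is certified if no output is certified in the sense of `XX` -/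
def YY (m : ℕ) (T : ℕ) (v : Bool) (x : α) : Prop :=
  ∃ (i : ℕ) (w : List Bool) (h : ℕ), i < h ∧ h ≤ T ∧ Full c Q m x T i w ∧ O (x, w) = v ∧
    -- `h` is the least index with `b (h, l) = 0` for all `l` in `(h, T]`
    (∀ i' < h, ∃ l ≤ T, i' < l ∧ bb c CF x i' l = true) ∧
    (∀ l ≤ T, h < l → bb c CF x h l = false) ∧
    ∀ i' < h, i < i' → ∃ l ≤ T, i' < l ∧ bb c CF x i' l = true ∧ Sat (GG c CF x i' l)

end chain

/-- correctness of the certificates for adaptive computations -/
def S_CHAIN : Prop := ∀ c : Ctx, KeyProps c → ∀ {α : Type} (Q : α × List Bool → Form)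
    (O : α × List Bool → Bool) (CF : α × ℕ → Form) (m T : ℕ) (x : α),
    (∀ w : List Bool, w.length ≤ T → sz (Q (x, w)) ≤ m) →
    (∀ i ≤ T, (Sat (CF (x, i)) ↔ Ci c Q m x i)) →
    (O (x, trans Q x T) = true ↔
      (XX c Q O CF m T true x ∨ (¬ XX c Q O CF m T false x ∧ YY c Q O CF m T true x)))

/-- the certificates for adaptive computations are NP predicates -/
structure ChainNP (c : Ctx) {α : Type} [Enc α] (Q : α × List Bool → Form)
    (O : α × List Bool → Bool) (m T : α → ℕ) : Prop where
  ci : NPp (fun p : α × ℕ => p.2 ≤ T p.1 ∧ Ci c Q (m p.1) p.1 p.2)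
  xx : ∀ (CF : α × ℕ → Form), PTime CF → ∀ v, NPp (fun x => XX c Q O CF (m x) (T x) v x)
  yy : ∀ (CF : α × ℕ → Form), PTime CF → ∀ v, NPp (fun x => YY c Q O CF (m x) (T x) v x)

def S_CHNP : Prop := ∀ c : Ctx, KeyProps c → ∀ {α : Type} [Enc α] [TMLib.Fix α]
    (Q : α × List Bool → Form) (O : α × List Bool → Bool) (m T : α → ℕ), PTime Q → PTime O →
    PTime m → PTime T → ChainNP c Q O m T

/-- adaptive queries can be replaced by one query -/
def S_ADAPT : Prop := Calc → S_TWO → S_CHAIN → S_CHNP → ∀ c : Ctx, KeyProps c →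
    ∀ {α : Type} [Enc α] [TMLib.Fix α] {L : α → Bool}, FPNP L → OneQ (fun x => L x = true)

end Pool.TQ
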