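import Pool.Agent.H74.TQ.Stmts

set_option autoImplicit false

namespace Pool.TQ

open TMLib Polynomial N68a2faeb

theorem tosat74 (hc : S_CODE) : S_TOSAT := by
  classical
  intro α _ _ R hR
  obtain ⟨V, q, h1, h2, h3⟩ := hR
  let L : DecisionProblem := fun z =>
    decide (∃ w : D, sz w ≤ q.eval z.length ∧ V (TMLib.Fix.fix (parse z)) w = true)
  have hL : L ∈ NP := by
    refine mem_NP_cert (β := D) (V := fun z w => V (TMLib.Fix.fix (parse z)) w &&
      decide (sz w ≤ q.eval z.length)) ?_ q ?_ ?_
    · refine PTime.and ?_ ?_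
      · exact h1.comp (f := fun p : List Bool × D => ((TMLib.Fix.fix (parse p.1) : α), p.2))
          (by fun_prop)
      · fun_prop
    · intro z w hw
      simp only [Bool.and_eq_true, decide_eq_true_eq] at hw
      exact decide_eq_true ⟨w, hw.2, hw.1⟩
    · intro z hz
      obtain ⟨w, hw, hw'⟩ := of_decide_eq_true hz
      exact ⟨w, hw, by rw [hw', Bool.true_and]; exact decide_eq_true hw⟩
  obtain ⟨f, hf, hf'⟩ := cook_levin hL
  refine ⟨fun a => f (enc a).code, hf.comp (hc.comp PTime.enc'), fun a => ?_⟩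
  rw [← hf']
  have e1 : (enc a).code.length = sz a := D.length_code _
  constructor
  · intro ha
    obtain ⟨w, hw, hw'⟩ := h3 a ha
    refine decide_eq_true ⟨w, ?_, ?_⟩
    · rw [e1]; exact hw
    · rw [parse_code, TMLib.Fix.fix_enc]; exact hw'
  · intro h
    obtain ⟨w, -, hw⟩ := of_decide_eq_true h
    rw [parse_code, TMLib.Fix.fix_enc] at hw
    exact h2 a w hw

end Pool.TQ
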